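import Mathlib
import Pool.Agent.W2helper2.TQ.A8

/-!
# The descent with the cubes of an isogeny of degree three: torsors over `F`
-/

set_option autoImplicit false
set_option linter.unusedSectionVars false

namespace Pool.Agent.W2helper33.ZC

open NumberField IsDedekindDomain WithZero
open scoped Classical
open Pool.Agent.Y696 (und und_lies mem_under_of_lies)
open Pool.Agent.W2helper24.TQ
open Pool.Agent.W2helper2.TQ

section loc

variable {F L : Type} [Field F] [NumberField F] [Field L] [NumberField L] [Algebra F L]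

/-- the local conditions at one place -/
def Cnd (w : HeightOneSpectrum (𝓞 L)) (z : w.adicCompletion L) : Prop :=
  (∃ m : ℤ, Valued.v z = exp (3 * m)) ∧ ((3 : 𝓞 L) ∈ w.asIdeal →
    PP Valued.v (Nat.card (𝓞 L ⧸ w.asIdeal) - 1) z)

lemma Cnd.inv {w : HeightOneSpectrum (𝓞 L)} {z : w.adicCompletion L} (h : Cnd w z⁻¹) :
    Cnd w z := by
  obtain ⟨⟨m, hm⟩, h2⟩ := h
  refine ⟨⟨-m, ?_⟩, fun h3 => ?_⟩
  · rw [map_inv₀] at hm
    rw [← inv_inv (Valued.v z), hm, ← exp_neg]
    congr 1
    ring
  · have h4 := (h2 h3).inv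
    rwa [inv_inv] at h4

/-- the local conditions from the relation with a local point -/
theorem cnd_of_rel {i : L} (hi : i ^ 2 = -1)
    (h2 : ∀ v : HeightOneSpectrum (𝓞 F), (2 : 𝓞 F) ∈ v.asIdeal →
      v.valuation F 2 = exp (-1 : ℤ))
    (h3 : ∀ w : HeightOneSpectrum (𝓞 L), (3 : 𝓞 L) ∈ w.asIdeal → w.valuation L 3 = exp (-2 : ℤ))
    (w : HeightOneSpectrum (𝓞 L)) {z : w.adicCompletion L} (hz0 : z ≠ 0)
    {j : (und (F := F) w).adicCompletion F →+* w.adicCompletion L}
    (hle : ∀ y, Valued.v y ≤ 1 → Valued.v (j y) ≤ 1) (hlt : ∀ y, Valued.v y < 1 → Valued.v (j y) < 1)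
    (hl : ∃ Z : w.adicCompletion L, Z ^ 3 = z ∨
        ∃ X Y : (und (F := F) w).adicCompletion F, Y ^ 2 = X ^ 3 - 1 ∧ j Y ≠ algebraMap L _ i ∧
          Z ^ 3 = (j Y - algebraMap L _ i) * z) : Cnd w z := by
  have hii : (algebraMap L (w.adicCompletion L) i) ^ 2 = -1 := by
    rw [← map_pow, hi, map_neg, map_one]
  obtain ⟨Z, hZ⟩ := hl
  refine ⟨?_, fun hw => ?_⟩
  · rcases hZ with hZ | ⟨X, Y, hXY, hYi, hZ⟩
    · have hZ0 : Z ≠ 0 := by
        rintro rfl
        rw [zero_pow (by norm_num)] at hZ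
        exact hz0 hZ.symm
      obtain ⟨m, hm⟩ := exp_of_ne (ν := Valued.v) hZ0
      refine ⟨m, ?_⟩
      rw [← hZ, map_pow, hm, ← exp_nsmul]
      simp
    · have hZ0 : Z ≠ 0 := by
        rintro rfl
        rw [zero_pow (by norm_num)] at hZ
        exact mul_ne_zero (sub_ne_zero.2 hYi) hz0 hZ.symm
      obtain ⟨m, hm⟩ := exp_of_ne (ν := Valued.v) hZ0
      obtain ⟨l, hl⟩ : ∃ l : ℤ, Valued.v (j Y - algebraMap L (w.adicCompletion L) i) =
          exp (3 * l) := by
        have he' : (j Y) ^ 2 = (j X) ^ 3 - 1 := by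
          rw [← map_pow, hXY, map_sub, map_pow, map_one]
        by_cases hw : (2 : 𝓞 L) ∈ w.asIdeal
        · have hv : (2 : 𝓞 F) ∈ (und (F := F) w).asIdeal := by
            rw [mem_under_of_lies (und_lies w), map_ofNat]
            exact hw
          refine div_two (μ := Valued.v) (ν := Valued.v) j hle hlt ?_ hii hXY
          have := vx (und (F := F) w) 2
          rw [map_ofNat] at this
          rw [this, h2 _ hv]
        · refine div_away (ν := Valued.v) hii ?_ hYi he'
          have h5 := vx w 2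
          rw [map_ofNat] at h5
          rw [h5]
          have h6 : ¬ w.valuation L ((2 : 𝓞 L) : L) < 1 := by
            rw [HeightOneSpectrum.valuation_lt_one_iff_mem]
            exact hw
          have h7 := w.valuation_le_one (K := L) (2 : 𝓞 L)
          have h8 : algebraMap (𝓞 L) L 2 = 2 := map_ofNat _ 2
          rw [← h8]
          exact le_antisymm h7 (not_lt.1 h6)
      have h5 := congrArg (Valued.v (R := w.adicCompletion L)) hZ
      rw [map_pow, map_mul, hl, hm, ← exp_nsmul] at h5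
      refine ⟨m - l, ?_⟩
      have h6 : exp (-(3 * l)) * (exp (3 * l) * Valued.v z) = Valued.v z := by
        rw [← mul_assoc, ← exp_add]
        simp
      rw [← h6, ← h5, ← exp_add]
      congr 1
      simp only [nsmul_eq_mul]
      push_cast
      ring
  · obtain ⟨r, hr⟩ := Pool.Agent.W2helper14.TQ.card_three w hw
    have hk : Nat.card (𝓞 L ⧸ w.asIdeal) - 1 + 1 = 3 ^ r := by
      rw [← hr]
      have : 0 < Nat.card (𝓞 L ⧸ w.asIdeal) := by rw [hr]; positivity
      omega
    have h3w : Valued.v (3 : w.adicCompletion L) = exp (-2 : ℤ) := by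
      have h5 := vx w 3
      rw [map_ofNat] at h5
      rw [h5, h3 w hw]
    have h3' : exp (-3 : ℤ) ≤ Valued.v (3 : w.adicCompletion L) := by
      rw [h3w, exp_le_exp]
      norm_num
    rcases hZ with hZ | ⟨X, Y, hXY, hYi, hZ⟩
    · have hZ0 : Z ≠ 0 := by
        rintro rfl
        rw [zero_pow (by norm_num)] at hZ
        exact hz0 hZ.symm
      rw [← hZ]
      exact PP.cube (ν := Valued.v) (fun t ht => fermat_compl w ht) h3' hZ0
    · have hZ0 : Z ≠ 0 := by
        rintro rfl
        rw [zero_pow (by norm_num)] at hZ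
        exact mul_ne_zero (sub_ne_zero.2 hYi) hz0 hZ.symm
      have he' : (j Y) ^ 2 = (j X) ^ 3 - 1 := by
        rw [← map_pow, hXY, map_sub, map_pow, map_one]
      have hP := pp_three (ν := Valued.v) hk (fun t ht => fermat_compl w ht) h3w hii hYi he'
      have e : z = Z ^ 3 * (j Y - algebraMap L (w.adicCompletion L) i)⁻¹ := by
        rw [hZ]
        field_simp [sub_ne_zero.2 hYi]
      rw [e]
      exact (PP.cube (ν := Valued.v) (fun t ht => fermat_compl w ht) h3' hZ0).mul hP.inv

/-- the global element -/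
theorem sel_of_cnd {z : L} (hz0 : z ≠ 0) (h : ∀ w : HeightOneSpectrum (𝓞 L),
    Cnd w (algebraMap L (w.adicCompletion L) z)) : Sel z := by
  refine ⟨hz0, fun w => ?_, fun w hw a ha => loc_of_PP ((h w).2 hw) a ha⟩
  obtain ⟨m, hm⟩ := (h w).1
  refine div_of_val (m := m) ?_
  rw [← vx, hm]

end loc

/-- the elements of `L = F(i)` with the local conditions and with norm a cube are cubes -/
theorem cube_of_sel {K F : Type} [Field K] [NumberField K] [IsCyclotomicExtension {3} ℚ K]
    [Field F] [NumberField F] [Algebra K F] [IsGalois K F] {n : ℕ} (hR : Ram K F)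
    {M : Type} [Field M] [NumberField M] [Algebra K M] {L : Type} [Field L]
    [NumberField L] [Algebra K L] [Algebra F L] [Algebra M L]
    [IsScalarTower K F L] [IsScalarTower K M L] [IsCyclotomicExtension {12} ℚ M] [IsGalois M L]
    {i : M} {σM : M ≃ₐ[K] M} {σ : L ≃ₐ[F] L} (T : Tow K F M L i σM σ n)
    (hn : Module.finrank K F = 3 ^ n) {z : L} (hsel : Sel z) (hcube : ∃ a, z * σ z = a ^ 3) :
    ∃ a, z = a ^ 3 := by
  obtain ⟨ζ, hζ⟩ := IsCyclotomicExtension.exists_isPrimitiveRoot ℚ K
    (Set.mem_singleton 3) (by norm_num)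
  have hζ2 : ζ ^ 2 + ζ + 1 = 0 := by
    have h3 : ζ ^ 3 = 1 := hζ.pow_eq_one
    have h4 : ζ ≠ 1 := hζ.ne_one (by norm_num)
    have h5 : (ζ - 1) * (ζ ^ 2 + ζ + 1) = 0 := by linear_combination h3
    exact (mul_eq_zero.1 h5).resolve_left (sub_ne_zero.2 h4)
  have hθ : (2 * ζ + 1) ^ 2 = -3 := by linear_combination 4 * hζ2
  obtain ⟨-, -, r3⟩ := a7 K F n hn hR M L i σM σ T
  have hv3 : ∀ w : HeightOneSpectrum (𝓞 L), (3 : 𝓞 L) ∈ w.asIdeal →
      w.valuation L 3 = exp (-2 : ℤ) := fun w hw => val_three_L hR T hw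
  have hθL : (algebraMap K L (2 * ζ + 1)) ^ 2 = -3 := by rw [← map_pow, hθ, map_neg, map_ofNat]
  have hfin : FiniteDimensional M L := Module.Finite.of_restrictScalars_finite ℚ M L
  exact a5 M L n T.fr (σ : L ≃+* L) T.sq T.comm (by
      intro ξ hξ
      by_cases h1 : ξ = 1
      · rw [h1, map_one]
      · have h3 : ξ ^ 2 + ξ + 1 = 0 := by
          have : (ξ - 1) * (ξ ^ 2 + ξ + 1) = 0 := by linear_combination hξ
          exact (mul_eq_zero.1 this).resolve_left (sub_ne_zero.2 h1)
        have h4 : (2 * ξ + 1 - algebraMap K L (2 * ζ + 1)) *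
            (2 * ξ + 1 + algebraMap K L (2 * ζ + 1)) = 0 := by
          linear_combination 4 * h3 - hθL
        have hσθ : σ (algebraMap K L (2 * ζ + 1)) = algebraMap K L (2 * ζ + 1) := by
          rw [IsScalarTower.algebraMap_apply K F L, AlgEquiv.commutes]
        have h20 : (2 : L) ≠ 0 := two_ne_zero
        have h5 : (2 : L) * σ ξ = 2 * ξ := by
          have h6 : σ (2 * ξ + 1) = 2 * σ ξ + 1 := by rw [map_add, map_mul, map_ofNat, map_one]
          rcases mul_eq_zero.1 h4 with h | h
          · have h7 : 2 * ξ + 1 = algebraMap K L (2 * ζ + 1) := sub_eq_zero.1 h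
            rw [h7, hσθ] at h6
            linear_combination -h6 - h7
          · have h7 : 2 * ξ + 1 = -algebraMap K L (2 * ζ + 1) := eq_neg_of_add_eq_zero_left h
            rw [h7, map_neg, hσθ] at h6
            linear_combination -h6 - h7
        exact mul_left_cancel₀ h20 h5)
    (fun z => Sel z) (fun a h => h.ne) (fun a h => Sel.cube hv3 h) (fun a b ha hb => ha.mul hb)
    (fun g a h => h.aut (g : L ≃+* L)) (fun a h => h.aut (σ : L ≃+* L))
    (by
      intro m hm hσ
      have h5 : σM m = m⁻¹ := by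
        apply (algebraMap M L).injective
        rw [← T.res, map_inv₀]
        exact hσ
      obtain ⟨a, ha⟩ := Pool.Agent.W2helper95.TQ.piece M m (r3 m hm h5)
      exact ⟨algebraMap M L a, by rw [ha, map_pow]⟩)
    z hsel hcube

end Pool.Agent.W2helper33.ZC
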