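import Mathlib
import Pool.Agent.W2helper33.ZC.Sel

/-!
# Binary cubic forms and the curves `g(x, y) = e z³`
-/

set_option autoImplicit false
set_option linter.unusedSectionVars false

namespace Pool.Agent.W2helper33.ZC

/-- the binary cubic form -/
def bin {R : Type} [CommRing R] (a b c d x y : R) : R :=
  a * x ^ 3 + b * x ^ 2 * y + c * x * y ^ 2 + d * y ^ 3

/-- the discriminant -/
def dsc {R : Type} [CommRing R] (a b c d : R) : R :=
  b ^ 2 * c ^ 2 - 4 * a * c ^ 3 - 4 * b ^ 3 * d - 27 * a ^ 2 * d ^ 2 + 18 * a * b * c * d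

/-- the Hessian form -/
def hes {R : Type} [CommRing R] (a b c d x y : R) : R :=
  (b ^ 2 - 3 * a * c) * x ^ 2 + (b * c - 9 * a * d) * x * y + (c ^ 2 - 3 * b * d) * y ^ 2

/-- the cubic covariant -/
def jac {R : Type} [CommRing R] (a b c d x y : R) : R :=
  (9 * a * b * c - 27 * a ^ 2 * d - 2 * b ^ 3) * x ^ 3 +
    (18 * a * c ^ 2 - 27 * a * b * d - 3 * b ^ 2 * c) * x ^ 2 * y +
    (3 * b * c ^ 2 - 18 * b ^ 2 * d + 27 * a * c * d) * x * y ^ 2 +
    (2 * c ^ 3 - 9 * b * c * d + 27 * a * d ^ 2) * y ^ 3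

section ring
variable {R : Type} [CommRing R] (a b c d x y : R)

lemma syz : jac a b c d x y ^ 2 + 27 * dsc a b c d * bin a b c d x y ^ 2 =
    4 * hes a b c d x y ^ 3 := by
  unfold jac dsc bin hes
  ring

variable {S : Type} [CommRing S] (f : R →+* S)

lemma map_bin : f (bin a b c d x y) = bin (f a) (f b) (f c) (f d) (f x) (f y) := by
  unfold bin
  simp only [map_add, map_mul, map_pow]

lemma map_dsc : f (dsc a b c d) = dsc (f a) (f b) (f c) (f d) := by
  unfold dsc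
  simp only [map_add, map_sub, map_mul, map_pow, map_ofNat]

lemma map_hes : f (hes a b c d x y) = hes (f a) (f b) (f c) (f d) (f x) (f y) := by
  unfold hes
  simp only [map_add, map_sub, map_mul, map_pow, map_ofNat]

lemma map_jac : f (jac a b c d x y) = jac (f a) (f b) (f c) (f d) (f x) (f y) := by
  unfold jac
  simp only [map_add, map_sub, map_mul, map_pow, map_ofNat]

end ring

section field
variable {E : Type} [Field E] [CharZero E]

/-- the value of the descent map -/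
def pv (κ a b c d x y : E) : E := (jac a b c d x y + κ * bin a b c d x y) / 2

/-- the linear form whose cube is `pv` up to `pv(1, 0)²` -/
def lin (κ a b c d x y : E) : E :=
  pv κ a b c d 1 0 * x + ((18 * a * c ^ 2 - 27 * a * b * d - 3 * b ^ 2 * c) + κ * b) / 6 * y

lemma pv_cube {κ a b c d : E} (hκ : κ ^ 2 = -27 * dsc a b c d) (x y : E) :
    pv κ a b c d x y * pv κ a b c d 1 0 ^ 2 = lin κ a b c d x y ^ 3 := by
  unfold pv lin pv jac bin
  unfold dsc at hκ
  have h2 : 3 * ((9 * a * b * c - 27 * a ^ 2 * d - 2 * b ^ 3) + κ * a) *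
      ((3 * b * c ^ 2 - 18 * b ^ 2 * d + 27 * a * c * d) + κ * c) =
      ((18 * a * c ^ 2 - 27 * a * b * d - 3 * b ^ 2 * c) + κ * b) ^ 2 := by
    linear_combination (3 * a * c - b ^ 2) * hκ
  have h3 : 27 * ((9 * a * b * c - 27 * a ^ 2 * d - 2 * b ^ 3) + κ * a) ^ 2 *
      ((2 * c ^ 3 - 9 * b * c * d + 27 * a * d ^ 2) + κ * d) =
      ((18 * a * c ^ 2 - 27 * a * b * d - 3 * b ^ 2 * c) + κ * b) ^ 3 := by
    linear_combination (27 * (2 * a * d * (9 * a * b * c - 27 * a ^ 2 * d - 2 * b ^ 3) +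
      a ^ 2 * (2 * c ^ 3 - 9 * b * c * d + 27 * a * d ^ 2)) -
      3 * (18 * a * c ^ 2 - 27 * a * b * d - 3 * b ^ 2 * c) * b ^ 2 +
      (27 * a ^ 2 * d - b ^ 3) * κ) * hκ
  generalize hP0 : (9 * a * b * c - 27 * a ^ 2 * d - 2 * b ^ 3) = G0 at *
  generalize hP1 : (18 * a * c ^ 2 - 27 * a * b * d - 3 * b ^ 2 * c) = G1 at *
  generalize hP2 : (3 * b * c ^ 2 - 18 * b ^ 2 * d + 27 * a * c * d) = G2 at *
  generalize hP3 : (2 * c ^ 3 - 9 * b * c * d + 27 * a * d ^ 2) = G3 at *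
  linear_combination (1 / 24 * (G0 + κ * a) * x * y ^ 2) * h2 + (1 / 216 * y ^ 3) * h3

lemma pv_mul {κ a b c d : E} (hκ : κ ^ 2 = -27 * dsc a b c d) (x y : E) :
    pv κ a b c d x y * pv (-κ) a b c d x y = hes a b c d x y ^ 3 := by
  have h := syz a b c d x y
  unfold pv
  linear_combination h / 4 - hκ * (bin a b c d x y) ^ 2 / 4

/-- the two linear forms have no common zero -/
lemma lin_zero {κ a b c d : E} (hκ0 : κ ≠ 0)
    (hH : b ^ 2 - 3 * a * c ≠ 0) {x y : E} (h1 : lin κ a b c d x y = 0)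
    (h2 : lin (-κ) a b c d x y = 0) : x = 0 ∧ y = 0 := by
  unfold lin pv jac bin at h1 h2
  have hy : κ * (b ^ 2 - 3 * a * c) ^ 2 * y = 0 := by
    linear_combination (-(3 / 2) * ((9 * a * b * c - 27 * a ^ 2 * d - 2 * b ^ 3) - κ * a)) * h1 +
      (3 / 2 * ((9 * a * b * c - 27 * a ^ 2 * d - 2 * b ^ 3) + κ * a)) * h2
  have hx : κ * (b ^ 2 - 3 * a * c) ^ 2 * x = 0 := by
    linear_combination (1 / 2 * ((18 * a * c ^ 2 - 27 * a * b * d - 3 * b ^ 2 * c) - κ * b)) * h1 -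
      (1 / 2 * ((18 * a * c ^ 2 - 27 * a * b * d - 3 * b ^ 2 * c) + κ * b)) * h2
  have h0 : κ * (b ^ 2 - 3 * a * c) ^ 2 ≠ 0 := mul_ne_zero hκ0 (pow_ne_zero _ hH)
  exact ⟨(mul_eq_zero.1 hx).resolve_left h0, (mul_eq_zero.1 hy).resolve_left h0⟩

/-- the relation of the local points with the global element -/
theorem rel_loc {Kv Lw : Type} [Field Kv] [CharZero Kv] [Field Lw] [CharZero Lw] (j : Kv →+* Lw)
    {a b c d e t θ : Kv} {i : Lw} (hi : i ^ 2 = -1) (hθ : θ ^ 2 = -3)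
    (ht : -16 * e ^ 2 * dsc a b c d = t ^ 6) (ht0 : t ≠ 0) (hH : b ^ 2 - 3 * a * c ≠ 0)
    {X Y Z : Kv} (h0 : ¬ (X = 0 ∧ Y = 0 ∧ Z = 0)) (h : bin a b c d X Y = e * Z ^ 3) {κ z : Lw}
    (hκ : 4 * j e * κ = 3 * j θ * i * j t ^ 3)
    (hz : z = pv κ (j a) (j b) (j c) (j d) 1 0) :
    (∃ W : Lw, W ^ 3 = z ∨ ∃ x y : Kv, y ^ 2 = x ^ 3 - 1 ∧ j y ≠ i ∧ W ^ 3 = (j y - i) * z) ∨
    (∃ W : Lw, W ^ 3 = z⁻¹ ∨ ∃ x y : Kv, y ^ 2 = x ^ 3 - 1 ∧ j y ≠ i ∧ W ^ 3 = (j y - i) * z⁻¹) := by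
  have he : e ≠ 0 := by
    rintro rfl
    apply pow_ne_zero 6 ht0
    rw [← ht]
    ring
  have hje : j e ≠ 0 := (map_ne_zero j).2 he
  have hjt : j t ≠ 0 := (map_ne_zero j).2 ht0
  have hθ0 : θ ≠ 0 := by
    rintro rfl
    rw [zero_pow (by norm_num)] at hθ
    have : (3 : Kv) = 0 := by linear_combination hθ
    exact three_ne_zero this
  have hjθ : j θ ≠ 0 := (map_ne_zero j).2 hθ0
  have hjθ2 : j θ ^ 2 = -3 := by rw [← map_pow, hθ, map_neg, map_ofNat]
  have hi0 : i ≠ 0 := by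
    rintro rfl
    rw [zero_pow (by norm_num)] at hi
    exact one_ne_zero (α := Lw) (by linear_combination hi)
  have hκ0 : κ ≠ 0 := by
    rintro rfl
    have : 3 * j θ * i * j t ^ 3 ≠ 0 :=
      mul_ne_zero (mul_ne_zero (mul_ne_zero three_ne_zero hjθ) hi0) (pow_ne_zero _ hjt)
    apply this
    rw [← hκ, mul_zero]
  have htj : -16 * j e ^ 2 * dsc (j a) (j b) (j c) (j d) = j t ^ 6 := by
    have h1 := congrArg j ht
    rw [map_mul, map_mul, map_pow, map_pow, map_neg, map_ofNat, map_dsc] at h1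
    exact h1
  have hκ2 : κ ^ 2 = -27 * dsc (j a) (j b) (j c) (j d) := by
    have h16 : (16 * j e ^ 2) ≠ 0 := mul_ne_zero (by norm_num) (pow_ne_zero _ hje)
    apply mul_left_cancel₀ h16
    have h1 : (4 * j e * κ) ^ 2 = (3 * j θ * i * j t ^ 3) ^ 2 := by rw [hκ]
    have h2 : (3 * j θ * i * j t ^ 3) ^ 2 = 27 * j t ^ 6 := by
      calc (3 * j θ * i * j t ^ 3) ^ 2 = 9 * (j θ ^ 2) * (i ^ 2) * j t ^ 6 := by ring
        _ = 27 * j t ^ 6 := by rw [hjθ2, hi]; ring
    linear_combination h1 + h2 - 27 * htj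
  have hHj : j b ^ 2 - 3 * j a * j c ≠ 0 := by
    have h1 : j (b ^ 2 - 3 * a * c) ≠ 0 := (map_ne_zero j).2 hH
    rw [map_sub, map_mul, map_mul, map_pow, map_ofNat] at h1
    exact h1
  have hκ2' : (-κ) ^ 2 = -27 * dsc (j a) (j b) (j c) (j d) := by rw [neg_sq, hκ2]
  -- the products
  have hprod0 : z * pv (-κ) (j a) (j b) (j c) (j d) 1 0 = (j b ^ 2 - 3 * j a * j c) ^ 3 := by
    rw [hz, pv_mul hκ2]
    unfold hes
    ring
  set z' := pv (-κ) (j a) (j b) (j c) (j d) 1 0 with hz'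
  have hz0 : z ≠ 0 := by
    rintro h1
    rw [h1, zero_mul] at hprod0
    exact pow_ne_zero 3 hHj hprod0.symm
  have hz0' : z' ≠ 0 := by
    rintro h1
    rw [h1, mul_zero] at hprod0
    exact pow_ne_zero 3 hHj hprod0.symm
  set x := j X
  set y := j Y
  have hP := pv_cube hκ2 x y
  have hP' := pv_cube hκ2' x y
  have hPP := pv_mul hκ2 x y
  rw [← hz] at hP
  rw [← hz'] at hP'
  set P := pv κ (j a) (j b) (j c) (j d) x y with hPd
  set P' := pv (-κ) (j a) (j b) (j c) (j d) x y with hPd'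
  have hbin : bin (j a) (j b) (j c) (j d) x y = j e * j Z ^ 3 := by
    rw [← map_bin, h, map_mul, map_pow]
  have hne : P ≠ 0 ∨ P' ≠ 0 := by
    by_contra hcon
    rw [not_or, not_not, not_not] at hcon
    obtain ⟨h1, h2⟩ := hcon
    rw [h1, zero_mul] at hP
    rw [h2, zero_mul] at hP'
    have h3 := lin_zero hκ0 hHj (pow_eq_zero_iff (by norm_num) |>.1 hP.symm)
      (pow_eq_zero_iff (by norm_num) |>.1 hP'.symm)
    have h4 : X = 0 := (map_eq_zero j).1 h3.1
    have h5 : Y = 0 := (map_eq_zero j).1 h3.2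
    refine h0 ⟨h4, h5, ?_⟩
    rw [h4, h5] at h
    have h6 : e * Z ^ 3 = 0 := by
      rw [← h]
      unfold bin
      ring
    exact pow_eq_zero_iff (by norm_num) |>.1 ((mul_eq_zero.1 h6).resolve_left he)
  by_cases hZ : Z = 0
  · left
    have hb0 : bin (j a) (j b) (j c) (j d) x y = 0 := by
      rw [hbin, hZ, map_zero]
      ring
    have h1 : P = P' := by
      rw [hPd, hPd']
      unfold pv
      rw [hb0, mul_zero, mul_zero]
    have hP0 : P ≠ 0 := by
      rcases hne with h2 | h2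
      · exact h2
      · rw [h1]; exact h2
    rw [← h1] at hPP
    set hh := hes (j a) (j b) (j c) (j d) x y
    set l := lin κ (j a) (j b) (j c) (j d) x y
    have hh0 : hh ≠ 0 := by
      rintro h2
      rw [h2] at hPP
      exact mul_ne_zero hP0 hP0 (hPP.trans (by ring))
    have hl0 : l ≠ 0 := by
      rintro h2
      rw [h2] at hP
      exact mul_ne_zero hP0 (pow_ne_zero 2 hz0) (hP.trans (by ring))
    refine ⟨z * P / (l * hh), Or.inl ?_⟩
    rw [div_pow, div_eq_iff (pow_ne_zero 3 (mul_ne_zero hl0 hh0)), mul_pow l, ← hP, ← hPP]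
    ring
  · have hjZ : j Z ≠ 0 := (map_ne_zero j).2 hZ
    have hD0 : θ * t * Z ≠ 0 := mul_ne_zero (mul_ne_zero hθ0 ht0) hZ
    have hjD0 : j θ * j t * j Z ≠ 0 := mul_ne_zero (mul_ne_zero hjθ hjt) hjZ
    set s := 4 * jac a b c d X Y / (θ * t * Z) ^ 3 with hs
    set r := 4 * hes a b c d X Y / (θ * t * Z) ^ 2 with hr
    have hD6 : (θ * t * Z) ^ 6 = -27 * (t ^ 6 * Z ^ 6) := by
      calc (θ * t * Z) ^ 6 = (θ ^ 2) ^ 3 * (t ^ 6 * Z ^ 6) := by ring
        _ = -27 * (t ^ 6 * Z ^ 6) := by rw [hθ]; norm_num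
    have hE : s ^ 2 = r ^ 3 - 1 := by
      have h1 := syz a b c d X Y
      rw [h] at h1
      have h2 : (θ * t * Z) ^ 6 * s ^ 2 = 16 * jac a b c d X Y ^ 2 := by
        rw [hs]
        field_simp
        ring
      have h3 : (θ * t * Z) ^ 6 * r ^ 3 = 64 * hes a b c d X Y ^ 3 := by
        rw [hr]
        field_simp
        ring
      apply mul_left_cancel₀ (pow_ne_zero 6 hD0)
      rw [mul_sub, h2, h3, hD6, mul_one]
      linear_combination 16 * h1 + 27 * Z ^ 6 * ht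
    have hθ3 : (j θ * j t * j Z) ^ 3 = -3 * j θ * (j t ^ 3 * j Z ^ 3) := by
      calc (j θ * j t * j Z) ^ 3 = (j θ ^ 2) * j θ * (j t ^ 3 * j Z ^ 3) := by ring
        _ = -3 * j θ * (j t ^ 3 * j Z ^ 3) := by rw [hjθ2]
    have hκb : 4 * κ * bin (j a) (j b) (j c) (j d) x y = -(i * (j θ * j t * j Z) ^ 3) := by
      rw [hbin, hθ3]
      linear_combination j Z ^ 3 * hκ
    have hjs : j s * (j θ * j t * j Z) ^ 3 = 4 * jac (j a) (j b) (j c) (j d) x y := by
      rw [hs, map_div₀, map_mul, map_ofNat, map_jac, map_pow, map_mul, map_mul]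
      exact div_mul_cancel₀ _ (pow_ne_zero 3 hjD0)
    have h8 : (j s - i) * (j θ * j t * j Z) ^ 3 = 8 * P := by
      rw [hPd]
      unfold pv
      linear_combination hjs - hκb
    have h8' : (j (-s) - i) * (j θ * j t * j Z) ^ 3 = -8 * P' := by
      rw [hPd', map_neg]
      unfold pv
      linear_combination -hjs - hκb
    rcases hne with h1 | h1
    · right
      set l := lin κ (j a) (j b) (j c) (j d) x y
      refine ⟨2 * l / (z * (j θ * j t * j Z)), Or.inr ⟨r, s, hE, ?_, ?_⟩⟩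
      · intro h2
        rw [h2, sub_self, zero_mul] at h8
        exact mul_ne_zero (by norm_num) h1 h8.symm
      · rw [div_pow, div_eq_iff (pow_ne_zero 3 (mul_ne_zero hz0 hjD0)), mul_pow z]
        have h2 : (j s - i) * z⁻¹ * (z ^ 3 * (j θ * j t * j Z) ^ 3) =
            ((j s - i) * (j θ * j t * j Z) ^ 3) * z ^ 2 := by
          field_simp
        rw [h2, h8, mul_pow, ← hP]
        ring
    · left
      set l := lin (-κ) (j a) (j b) (j c) (j d) x y
      refine ⟨-(2 * l * (j b ^ 2 - 3 * j a * j c)) / (z' * (j θ * j t * j Z)),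
        Or.inr ⟨r, -s, by rw [neg_sq, hE], ?_, ?_⟩⟩
      · intro h2
        rw [h2, sub_self, zero_mul] at h8'
        exact mul_ne_zero (by norm_num) h1 h8'.symm
      · rw [div_pow, div_eq_iff (pow_ne_zero 3 (mul_ne_zero hz0' hjD0)), mul_pow z']
        have h2 : (j (-s) - i) * z * (z' ^ 3 * (j θ * j t * j Z) ^ 3) =
            ((j (-s) - i) * (j θ * j t * j Z) ^ 3) * z' ^ 2 * (z * z') := by
          ring
        rw [h2, h8', hprod0]
        linear_combination (8 * (j b ^ 2 - 3 * j a * j c) ^ 3) * hP'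

end field

end Pool.Agent.W2helper33.ZC
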