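import Mathlib
import Pool.Agent.W2helper33.ZC.Bin

/-!
# The curve `g(x, y) = e z³` as a torsor
-/

set_option autoImplicit false
set_option linter.unusedSectionVars false

namespace Pool.Agent.W2helper33.ZC

open WeierstrassCurve
open scoped Classical
open Pool.Agent.W2helper24.TQ (Em)
open Pool.Agent.W2helper2.TQ
open Pool.Agent.TH841.SH.D (Pt act Gal)

section SS
variable {κ : Type} [Field κ] [CharZero κ] {M : Type} [Field M] [Algebra κ M] [CharZero M]
  {I : M} (hI : I ^ 2 = -1) {ω : κ} (hω : ω ^ 2 + ω + 1 = 0)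

include hI in
lemma I_ne0 : I ≠ 0 := by
  rintro rfl
  exact one_ne_zero (α := M) (by linear_combination hI)

include hI in
lemma cb_ne {c b : M} (h : c ^ 3 - b ^ 3 = -2 * I) : c - b ≠ 0 := by
  intro h1
  have h2 : c = b := sub_eq_zero.1 h1
  rw [h2, sub_self] at h
  exact mul_ne_zero (by norm_num) (I_ne0 hI) h.symm

include hI hω in
lemma SS_nons {c b : M} (h : c ^ 3 - b ^ 3 = -2 * I) :
    ((Em κ).baseChange M).toAffine.Nonsingular (2 * I / (c - b))
      ((1 + 2 * algebraMap κ M ω) * I * (c + b) / (c - b)) := by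
  apply (isEb κ M).nons
  have h0 := cb_ne hI h
  have hw := map_om hω M
  set w := algebraMap κ M ω
  have key : ((1 + 2 * w) * I * (c + b)) ^ 2 * (c - b) = (2 * I) ^ 3 - (c - b) ^ 3 := by
    linear_combination (4 * I ^ 2 * (c + b) ^ 2 * (c - b)) * hw +
      (-3 * (c + b) ^ 2 * (c - b) - 8 * I) * hI + 4 * h
  rw [div_pow, div_pow, eq_comm, sub_eq_iff_eq_add, div_eq_iff (pow_ne_zero 3 h0)]
  have e : (((1 + 2 * w) * I * (c + b)) ^ 2 / (c - b) ^ 2 + 1) * (c - b) ^ 3 =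
      ((1 + 2 * w) * I * (c + b)) ^ 2 * (c - b) + (c - b) ^ 3 := by
    field_simp
  rw [e, key]
  ring

/-- the point with the parameters `c` and `b` -/
noncomputable def SS {c b : M} (h : c ^ 3 - b ^ 3 = -2 * I) : Pt (Em κ) M :=
  Affine.Point.some _ _ (SS_nons (κ := κ) hI hω h)

lemma SS_ext {c b c' b' : M} (h : c ^ 3 - b ^ 3 = -2 * I) (h' : c' ^ 3 - b' ^ 3 = -2 * I)
    (hc : c = c') (hb : b = b') : SS hI hω h = SS hI hω h' := by
  subst hc hb
  rfl

include hω in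
lemma w3 : (algebraMap κ M ω) ^ 3 = 1 := by
  have hw := map_om hω M
  linear_combination (algebraMap κ M ω - 1) * hw

lemma twist_rel {c b w : M} (h3 : w ^ 3 = 1) (h : c ^ 3 - b ^ 3 = -2 * I) (n : ℕ) :
    ((w ^ 2) ^ n * c) ^ 3 - (w ^ n * b) ^ 3 = -2 * I := by
  have h1 : ((w ^ 2) ^ n) ^ 3 = 1 := by
    rw [← pow_mul, ← pow_mul, show 2 * (n * 3) = 3 * (2 * n) by ring, pow_mul, h3, one_pow]
  have h2 : (w ^ n) ^ 3 = 1 := by rw [← pow_mul, mul_comm n 3, pow_mul, h3, one_pow]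
  rw [mul_pow, mul_pow, h1, h2, one_mul, one_mul, h]

lemma SS_add_T {c b : M} (h : c ^ 3 - b ^ 3 = -2 * I)
    (h' : ((algebraMap κ M ω) ^ 2 * c) ^ 3 - (algebraMap κ M ω * b) ^ 3 = -2 * I) :
    SS hI hω h + Tp κ hI = SS hI hω h' := by
  have h0 := cb_ne hI h
  have h0' := cb_ne hI h'
  have hI0 := I_ne0 hI
  have hw := map_om hω M
  have hx0 : 2 * I / (c - b) ≠ 0 := div_ne_zero (mul_ne_zero two_ne_zero hI0) h0
  obtain ⟨hn, e⟩ := add_T0 (isEb κ M) hI (SS_nons (κ := κ) hI hω h) hx0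
  refine Eq.trans e ?_
  unfold SS
  set w := algebraMap κ M ω
  set x := 2 * I / (c - b) with hx
  set y := (1 + 2 * w) * I * (c + b) / (c - b) with hy
  have ex : x * (c - b) = 2 * I := div_mul_cancel₀ _ h0
  have ey : y * (c - b) = (1 + 2 * w) * I * (c + b) := div_mul_cancel₀ _ h0
  have k1 : -(y - I) * (w ^ 2 * c - w * b) = x ^ 2 := by
    apply mul_left_cancel₀ (pow_ne_zero 2 h0)
    have e1 : (y - I) * (c - b) = I * (2 * w * c - 2 * w ^ 2 * b) := by
      linear_combination ey + 2 * I * b * hw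
    calc (c - b) ^ 2 * (-(y - I) * (w ^ 2 * c - w * b)) =
          -(((y - I) * (c - b)) * ((w ^ 2 * c - w * b) * (c - b))) := by ring
      _ = -((I * (2 * w * c - 2 * w ^ 2 * b)) * ((w ^ 2 * c - w * b) * (c - b))) := by rw [e1]
      _ = (x * (c - b)) ^ 2 := by
          rw [ex]
          linear_combination (-2 * I) * h - 2 * I * (w - 1) * (c - b) * (c ^ 2 + b ^ 2 - w * c * b) * hw +
            2 * I * (c - b) * c * b * hw
      _ = (c - b) ^ 2 * x ^ 2 := by ring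
  have k2 : -(y - 3 * I) = (1 + 2 * w) * (w ^ 2 * c + w * b) * x := by
    apply mul_left_cancel₀ h0
    calc (c - b) * -(y - 3 * I) = -(y * (c - b)) + 3 * I * (c - b) := by ring
      _ = -((1 + 2 * w) * I * (c + b)) + 3 * I * (c - b) := by rw [ey]
      _ = (1 + 2 * w) * (w ^ 2 * c + w * b) * (2 * I) := by
          linear_combination (-2 * I * c * (1 + 2 * w) - 4 * I * b + 4 * I * c) * hw
      _ = (c - b) * ((1 + 2 * w) * (w ^ 2 * c + w * b) * x) := by rw [← ex]; ring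
  refine pt_ext.2 ⟨?_, ?_⟩
  · rw [div_eq_div_iff (pow_ne_zero 2 hx0) h0']
    linear_combination 2 * I * k1
  · rw [div_eq_div_iff (pow_ne_zero 3 hx0) h0']
    linear_combination (-I * (y - 3 * I)) * k1 + I * x ^ 2 * k2

lemma SS_tt {c b : M} (h : c ^ 3 - b ^ 3 = -2 * I) (a : ZMod 3)
    (h' : (((algebraMap κ M ω) ^ 2) ^ a.val * c) ^ 3 - ((algebraMap κ M ω) ^ a.val * b) ^ 3 = -2 * I) :
    SS hI hω h + tt κ hI a = SS hI hω h' := by
  unfold tt
  generalize a.val = n at *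
  induction n with
  | zero =>
    rw [zero_nsmul, add_zero]
    exact SS_ext hI hω _ _ (by ring) (by ring)
  | succ n ih =>
    have h2 := twist_rel (I := I) (w3 (M := M) hω) h n
    rw [succ_nsmul, ← add_assoc, ih h2]
    have h3 : ((algebraMap κ M ω) ^ 2 * (((algebraMap κ M ω) ^ 2) ^ n * c)) ^ 3 -
        (algebraMap κ M ω * ((algebraMap κ M ω) ^ n * b)) ^ 3 = -2 * I := by
      rw [← h']
      ring
    rw [SS_add_T hI hω h2 h3]
    exact SS_ext hI hω _ _ (by ring) (by ring)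

include hω in
lemma lam_ne' : (1 + 2 * algebraMap κ M ω) ≠ 0 := by
  intro h
  have hw := map_om hω M
  have h3 : (3 : M) = 0 := by
    linear_combination 4 * hw - (1 + 2 * algebraMap κ M ω) * h
  exact three_ne_zero h3

lemma gk_SS {c b : M} (h : c ^ 3 - b ^ 3 = -2 * I) : gk ω I (SS hI hω h) = c := by
  have h0 := cb_ne hI h
  have hI0 := I_ne0 hI
  have hl := lam_ne' (M := M) hω
  show ((1 + 2 * algebraMap κ M ω) * I * (c + b) / (c - b) + I * (1 + 2 * algebraMap κ M ω)) /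
    ((1 + 2 * algebraMap κ M ω) * (2 * I / (c - b))) = c
  field_simp
  ring

lemma act_SS (σ : M →ₐ[κ] M) (hσ : σ I = I) {c b : M} (h : c ^ 3 - b ^ 3 = -2 * I)
    (h' : (σ c) ^ 3 - (σ b) ^ 3 = -2 * I) : act (Em κ) σ (SS hI hω h) = SS hI hω h' := by
  refine pt_ext.2 ⟨?_, ?_⟩
  · rw [map_div₀, map_mul, map_sub, map_ofNat, hσ]
  · rw [map_div₀, map_mul, map_mul, map_add, map_add, map_sub, map_mul, map_one, map_ofNat, hσ,
      σ.commutes]

lemma act_SS_neg (σ : M →ₐ[κ] M) (hσ : σ I = -I) {c b : M} (h : c ^ 3 - b ^ 3 = -2 * I)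
    (h' : (σ b) ^ 3 - (σ c) ^ 3 = -2 * I) : act (Em κ) σ (SS hI hω h) = SS hI hω h' := by
  have h0' := cb_ne hI h'
  have h0'' : σ c - σ b ≠ 0 := by
    intro h1
    apply h0'
    linear_combination -h1
  refine pt_ext.2 ⟨?_, ?_⟩
  · rw [map_div₀, map_mul, map_sub, map_ofNat, hσ, div_eq_div_iff h0'' h0']
    ring
  · rw [map_div₀, map_mul, map_mul, map_add, map_add, map_sub, map_mul, map_one, map_ofNat, hσ,
      σ.commutes, div_eq_div_iff h0'' h0']
    ring

end SS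

/-! ### The points of the curve `g(x, y) = e z³` -/

/-- the data -/
structure Dat (κ M : Type) [Field κ] [CharZero κ] [Field M] [Algebra κ M] [CharZero M]
    (a b c d e t ω : κ) (I ϰ s : M) : Prop where
  hI : I ^ 2 = -1
  hω : ω ^ 2 + ω + 1 = 0
  ht : -16 * e ^ 2 * dsc a b c d = t ^ 6
  ht0 : t ≠ 0
  hH : b ^ 2 - 3 * a * c ≠ 0
  hκ : 4 * algebraMap κ M e * ϰ = 3 * algebraMap κ M (1 + 2 * ω) * I * (algebraMap κ M t) ^ 3
  hs : s ^ 3 = pv ϰ (algebraMap κ M a) (algebraMap κ M b) (algebraMap κ M c) (algebraMap κ M d) 1 0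

section dat
variable {κ M : Type} [Field κ] [CharZero κ] [Field M] [Algebra κ M] [CharZero M]
    {a b c d e t ω : κ} {I ϰ s : M} (D : Dat κ M a b c d e t ω I ϰ s)

include D

lemma Dat.e0 : e ≠ 0 := by
  rintro rfl
  apply pow_ne_zero 6 D.ht0
  rw [← D.ht]
  ring

lemma Dat.lam2 : (1 + 2 * ω) ^ 2 = -3 := by linear_combination 4 * D.hω

lemma Dat.lam0 : (1 + 2 * ω) ≠ 0 := by
  intro h
  have h2 := D.lam2
  rw [h, zero_pow (by norm_num)] at h2
  exact three_ne_zero (α := κ) (by linear_combination h2)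

lemma Dat.κ0 : ϰ ≠ 0 := by
  rintro rfl
  have h1 : 3 * algebraMap κ M (1 + 2 * ω) * I * (algebraMap κ M t) ^ 3 ≠ 0 :=
    mul_ne_zero (mul_ne_zero (mul_ne_zero three_ne_zero ((map_ne_zero _).2 D.lam0)) (I_ne0 D.hI))
      (pow_ne_zero _ ((map_ne_zero _).2 D.ht0))
  apply h1
  rw [← D.hκ, mul_zero]

lemma Dat.κ2 : ϰ ^ 2 = -27 * dsc (algebraMap κ M a) (algebraMap κ M b) (algebraMap κ M c)
    (algebraMap κ M d) := by
  have h16 : (16 * (algebraMap κ M e) ^ 2) ≠ 0 :=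
    mul_ne_zero (by norm_num) (pow_ne_zero _ ((map_ne_zero _).2 D.e0))
  apply mul_left_cancel₀ h16
  have h1 : (4 * algebraMap κ M e * ϰ) ^ 2 =
      (3 * algebraMap κ M (1 + 2 * ω) * I * (algebraMap κ M t) ^ 3) ^ 2 := by rw [D.hκ]
  have hl : (algebraMap κ M (1 + 2 * ω)) ^ 2 = -3 := by
    rw [← map_pow, D.lam2, map_neg, map_ofNat]
  have h2 : (3 * algebraMap κ M (1 + 2 * ω) * I * (algebraMap κ M t) ^ 3) ^ 2 =
      27 * (algebraMap κ M t) ^ 6 := by
    calc (3 * algebraMap κ M (1 + 2 * ω) * I * (algebraMap κ M t) ^ 3) ^ 2 =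
          9 * (algebraMap κ M (1 + 2 * ω)) ^ 2 * (I ^ 2) * (algebraMap κ M t) ^ 6 := by ring
      _ = 27 * (algebraMap κ M t) ^ 6 := by rw [hl, D.hI]; ring
  have htj : -16 * (algebraMap κ M e) ^ 2 * dsc (algebraMap κ M a) (algebraMap κ M b)
      (algebraMap κ M c) (algebraMap κ M d) = (algebraMap κ M t) ^ 6 := by
    have h1 := congrArg (algebraMap κ M) D.ht
    rw [map_mul, map_mul, map_pow, map_pow, map_neg, map_ofNat, map_dsc] at h1
    exact h1
  linear_combination h1 + h2 - 27 * htj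

lemma Dat.κ2' : (-ϰ) ^ 2 = -27 * dsc (algebraMap κ M a) (algebraMap κ M b) (algebraMap κ M c)
    (algebraMap κ M d) := by rw [neg_sq, D.κ2]

lemma Dat.HM : algebraMap κ M (b ^ 2 - 3 * a * c) ≠ 0 := (map_ne_zero _).2 D.hH

lemma Dat.zz : s ^ 3 * pv (-ϰ) (algebraMap κ M a) (algebraMap κ M b) (algebraMap κ M c)
    (algebraMap κ M d) 1 0 = (algebraMap κ M (b ^ 2 - 3 * a * c)) ^ 3 := by
  rw [D.hs, pv_mul D.κ2]
  unfold hes
  simp only [map_sub, map_mul, map_pow, map_ofNat]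
  ring

lemma Dat.s0 : s ≠ 0 := by
  rintro rfl
  have h := D.zz
  rw [zero_pow (by norm_num), zero_mul] at h
  exact pow_ne_zero 3 D.HM h.symm

/-- the second cube root -/
noncomputable def sb (D : Dat κ M a b c d e t ω I ϰ s) : M :=
  have _ := D
  algebraMap κ M (b ^ 2 - 3 * a * c) / s

lemma Dat.sb3 : sb D ^ 3 = pv (-ϰ) (algebraMap κ M a) (algebraMap κ M b) (algebraMap κ M c)
    (algebraMap κ M d) 1 0 := by
  unfold sb
  rw [div_pow, div_eq_iff (pow_ne_zero 3 D.s0), ← D.zz]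
  ring

lemma Dat.sb0 : sb D ≠ 0 := div_ne_zero D.HM D.s0

/-- the first parameter -/
noncomputable def cP (D : Dat κ M a b c d e t ω I ϰ s) (x y Z : M) : M :=
  have _ := D
  2 * lin ϰ (algebraMap κ M a) (algebraMap κ M b) (algebraMap κ M c) (algebraMap κ M d) x y * s /
    (algebraMap κ M ((1 + 2 * ω) * t) * Z * s ^ 3)

/-- the second parameter -/
noncomputable def bP (D : Dat κ M a b c d e t ω I ϰ s) (x y Z : M) : M :=
  2 * lin (-ϰ) (algebraMap κ M a) (algebraMap κ M b) (algebraMap κ M c) (algebraMap κ M d) x y *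
    sb D / (algebraMap κ M ((1 + 2 * ω) * t) * Z * sb D ^ 3)

lemma Dat.rel {x y Z : M} (hZ : Z ≠ 0)
    (h : bin (algebraMap κ M a) (algebraMap κ M b) (algebraMap κ M c) (algebraMap κ M d) x y =
      algebraMap κ M e * Z ^ 3) : cP D x y Z ^ 3 - bP D x y Z ^ 3 = -2 * I := by
  have h1 := pv_cube D.κ2 x y
  have h2 := pv_cube D.κ2' x y
  rw [← D.hs] at h1
  rw [← D.sb3] at h2
  have hs0 := D.s0
  have hsb0 := D.sb0
  have hl : (algebraMap κ M (1 + 2 * ω)) ^ 2 = -3 := by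
    rw [← map_pow, D.lam2, map_neg, map_ofNat]
  have hD0 : algebraMap κ M ((1 + 2 * ω) * t) * Z ≠ 0 :=
    mul_ne_zero ((map_ne_zero _).2 (mul_ne_zero D.lam0 D.ht0)) hZ
  have e1 : cP D x y Z ^ 3 = 8 * pv ϰ (algebraMap κ M a) (algebraMap κ M b) (algebraMap κ M c)
      (algebraMap κ M d) x y / (algebraMap κ M ((1 + 2 * ω) * t) * Z) ^ 3 := by
    unfold cP
    rw [div_pow, div_eq_div_iff (pow_ne_zero 3 (mul_ne_zero hD0 (pow_ne_zero 3 hs0)))
      (pow_ne_zero 3 hD0), mul_pow (2 * _) s 3, mul_pow 2 _ 3, ← h1]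
    ring
  have e2 : bP D x y Z ^ 3 = 8 * pv (-ϰ) (algebraMap κ M a) (algebraMap κ M b) (algebraMap κ M c)
      (algebraMap κ M d) x y / (algebraMap κ M ((1 + 2 * ω) * t) * Z) ^ 3 := by
    unfold bP
    rw [div_pow, div_eq_div_iff (pow_ne_zero 3 (mul_ne_zero hD0 (pow_ne_zero 3 hsb0)))
      (pow_ne_zero 3 hD0), mul_pow (2 * _) (sb D) 3, mul_pow 2 _ 3, ← h2]
    ring
  rw [e1, e2, ← sub_div, div_eq_iff (pow_ne_zero 3 hD0)]
  have e3 : (algebraMap κ M ((1 + 2 * ω) * t) * Z) ^ 3 =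
      -3 * algebraMap κ M (1 + 2 * ω) * (algebraMap κ M t) ^ 3 * Z ^ 3 := by
    rw [map_mul]
    calc (algebraMap κ M (1 + 2 * ω) * algebraMap κ M t * Z) ^ 3 =
          (algebraMap κ M (1 + 2 * ω)) ^ 2 * algebraMap κ M (1 + 2 * ω) *
            (algebraMap κ M t) ^ 3 * Z ^ 3 := by ring
      _ = -3 * algebraMap κ M (1 + 2 * ω) * (algebraMap κ M t) ^ 3 * Z ^ 3 := by rw [hl]
  rw [e3]
  unfold pv
  linear_combination 8 * ϰ * h + 2 * Z ^ 3 * D.hκ

/-- the point of the curve `E` -/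
noncomputable def SP (D : Dat κ M a b c d e t ω I ϰ s) (x y Z : M) : Pt (Em κ) M :=
  if h : cP D x y Z ^ 3 - bP D x y Z ^ 3 = -2 * I then SS D.hI D.hω h else 0

lemma Dat.SP_eq {x y Z : M} (h : cP D x y Z ^ 3 - bP D x y Z ^ 3 = -2 * I) :
    SP D x y Z = SS D.hI D.hω h := dif_pos h

/-- **the action** -/
theorem Dat.action (σ : M →ₐ[κ] M) : ∃ m : ZMod 3,
    (∀ x y Z : M, Z ≠ 0 →
      bin (algebraMap κ M a) (algebraMap κ M b) (algebraMap κ M c) (algebraMap κ M d) x y =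
        algebraMap κ M e * Z ^ 3 →
      act (Em κ) σ (SP D x y Z) = SP D (σ x) (σ y) (σ Z) + tt κ D.hI m) ∧
    (σ I = I → σ s = ((algebraMap κ M ω) ^ 2) ^ m.val * s) := by
  have hw3 := w3 (M := M) D.hω
  have hw := map_om D.hω M
  have hcas : σ I = I ∨ σ I = -I := by
    have h1 : (σ I) ^ 2 = -1 := by rw [← map_pow, D.hI, map_neg, map_one]
    have h2 : (σ I - I) * (σ I + I) = 0 := by linear_combination h1 - D.hI
    rcases mul_eq_zero.1 h2 with h3 | h3
    · exact Or.inl (sub_eq_zero.1 h3)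
    · exact Or.inr (eq_neg_of_add_eq_zero_left h3)
  have he0 : algebraMap κ M e ≠ 0 := (map_ne_zero _).2 D.e0
  have hroot : ∀ u : M, u ^ 3 = s ^ 3 → ∃ m : ZMod 3, u = ((algebraMap κ M ω) ^ 2) ^ m.val * s := by
    intro u hu
    have h1 : (u - s) * ((u - (algebraMap κ M ω) ^ 2 * s) *
        (u - ((algebraMap κ M ω) ^ 2) ^ 2 * s)) = 0 := by
      have e : (u - s) * ((u - (algebraMap κ M ω) ^ 2 * s) *
        (u - ((algebraMap κ M ω) ^ 2) ^ 2 * s)) = (u ^ 3 - s ^ 3) +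
        (algebraMap κ M ω ^ 2 + algebraMap κ M ω + 1) *
          ((algebraMap κ M ω ^ 2 - algebraMap κ M ω + 1) * (u * s ^ 2 - u ^ 2 * s)) +
          (1 - algebraMap κ M ω ^ 6) * (s ^ 3 - u * s ^ 2) := by ring
      rw [e, hu, hw, show algebraMap κ M ω ^ 6 = (algebraMap κ M ω ^ 3) ^ 2 by ring, hw3]
      ring
    rcases mul_eq_zero.1 h1 with h2 | h2
    · refine ⟨0, ?_⟩
      rw [ZMod.val_zero, pow_zero, one_mul]
      exact sub_eq_zero.1 h2
    · rcases mul_eq_zero.1 h2 with h3 | h3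
      · refine ⟨1, ?_⟩
        have : (1 : ZMod 3).val = 1 := rfl
        rw [this, pow_one]
        exact sub_eq_zero.1 h3
      · refine ⟨2, ?_⟩
        have : (2 : ZMod 3).val = 2 := rfl
        rw [this]
        exact sub_eq_zero.1 h3
  have hpow : ∀ n : ℕ, ((algebraMap κ M ω) ^ 2) ^ n * (algebraMap κ M ω) ^ n = 1 := by
    intro n
    rw [← mul_pow, ← pow_succ, hw3, one_pow]
  have hwn : ∀ n : ℕ, ((algebraMap κ M ω) ^ 2) ^ n ≠ 0 := by
    intro n h
    have := hpow n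
    rw [h, zero_mul] at this
    exact zero_ne_one this
  have hHσ : σ (algebraMap κ M (b ^ 2 - 3 * a * c)) = algebraMap κ M (b ^ 2 - 3 * a * c) :=
    σ.commutes _
  have hssb : s * sb D = algebraMap κ M (b ^ 2 - 3 * a * c) := by
    unfold sb
    rw [mul_div_cancel₀ _ D.s0]
  have hlin : ∀ (η : M) (x y : M), σ (lin η (algebraMap κ M a) (algebraMap κ M b)
      (algebraMap κ M c) (algebraMap κ M d) x y) = lin (σ η) (algebraMap κ M a) (algebraMap κ M b)
      (algebraMap κ M c) (algebraMap κ M d) (σ x) (σ y) := by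
    intro η x y
    unfold lin pv jac bin
    simp only [map_add, map_sub, map_mul, map_div₀, map_pow, map_ofNat, σ.commutes, map_one,
      map_zero]
  have hpv : ∀ η : M, σ (pv η (algebraMap κ M a) (algebraMap κ M b)
      (algebraMap κ M c) (algebraMap κ M d) 1 0) = pv (σ η) (algebraMap κ M a) (algebraMap κ M b)
      (algebraMap κ M c) (algebraMap κ M d) 1 0 := by
    intro η
    unfold pv jac bin
    simp only [map_add, map_sub, map_mul, map_div₀, map_pow, map_ofNat, σ.commutes, map_one,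
      map_zero]
  have hσpt : ∀ x y Z : M, bin (algebraMap κ M a) (algebraMap κ M b) (algebraMap κ M c)
      (algebraMap κ M d) x y = algebraMap κ M e * Z ^ 3 →
      bin (algebraMap κ M a) (algebraMap κ M b) (algebraMap κ M c)
      (algebraMap κ M d) (σ x) (σ y) = algebraMap κ M e * (σ Z) ^ 3 := by
    intro x y Z h
    have h1 := congrArg σ.toRingHom h
    rw [map_bin, map_mul, map_pow] at h1
    simp only [AlgHom.toRingHom_eq_coe, RingHom.coe_coe, σ.commutes] at h1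
    exact h1
  rcases hcas with hσ | hσ
  · have hσκ : σ ϰ = ϰ := by
      apply mul_left_cancel₀ (mul_ne_zero (by norm_num : (4 : M) ≠ 0) he0)
      have h1 := congrArg σ D.hκ
      simp only [map_mul, map_pow, map_ofNat, σ.commutes, hσ] at h1
      rw [h1, ← D.hκ]
    have hσ3 : (σ s) ^ 3 = s ^ 3 := by rw [← map_pow, D.hs, hpv, hσκ]
    obtain ⟨m, hm⟩ := hroot _ hσ3
    refine ⟨m, fun x y Z hZ h => ?_, fun _ => hm⟩
    have hsb : σ (sb D) = (algebraMap κ M ω) ^ m.val * sb D := by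
      apply mul_left_cancel₀ (mul_ne_zero (hwn m.val) D.s0)
      rw [← hm, ← map_mul, hssb, hHσ, ← hssb, hm]
      linear_combination (-s * sb D) * hpow m.val
    have hσZ : σ Z ≠ 0 := (map_ne_zero σ).2 hZ
    have r1 := D.rel hZ h
    have r2 := D.rel hσZ (hσpt _ _ _ h)
    have hsb3 : σ (sb D) ^ 3 = sb D ^ 3 := by
      rw [hsb, mul_pow, ← pow_mul, mul_comm m.val 3, pow_mul, hw3, one_pow, one_mul]
    have c1 : σ (cP D x y Z) = ((algebraMap κ M ω) ^ 2) ^ m.val * cP D (σ x) (σ y) (σ Z) := by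
      unfold cP
      rw [map_div₀, map_mul, map_mul, map_mul, map_mul, map_pow, map_ofNat, hlin, hσκ, σ.commutes,
        hσ3, hm]
      ring
    have b1 : σ (bP D x y Z) = (algebraMap κ M ω) ^ m.val * bP D (σ x) (σ y) (σ Z) := by
      unfold bP
      rw [map_div₀, map_mul, map_mul, map_mul, map_mul, map_pow, map_ofNat, hlin, map_neg, hσκ,
        σ.commutes, hsb3, hsb]
      ring
    rw [D.SP_eq r1, D.SP_eq r2, SS_tt D.hI D.hω r2 m (twist_rel hw3 r2 _)]
    have r3 : (σ (cP D x y Z)) ^ 3 - (σ (bP D x y Z)) ^ 3 = -2 * I := by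
      rw [c1, b1]
      exact twist_rel hw3 r2 _
    rw [act_SS D.hI D.hω σ hσ r1 r3]
    exact SS_ext D.hI D.hω _ _ c1 b1
  · have hσκ : σ ϰ = -ϰ := by
      apply mul_left_cancel₀ (mul_ne_zero (by norm_num : (4 : M) ≠ 0) he0)
      have h1 := congrArg σ D.hκ
      simp only [map_mul, map_pow, map_ofNat, σ.commutes, hσ] at h1
      rw [h1]
      linear_combination D.hκ
    have hσ3 : (σ (sb D)) ^ 3 = s ^ 3 := by
      rw [← map_pow, D.sb3, hpv, map_neg, hσκ, neg_neg, D.hs]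
    have hσs3 : (σ s) ^ 3 = sb D ^ 3 := by
      rw [← map_pow, D.hs, hpv, hσκ, D.sb3]
    obtain ⟨m, hm⟩ := hroot _ hσ3
    refine ⟨m, fun x y Z hZ h => ?_, fun h => ?_⟩
    · have hs' : σ s = (algebraMap κ M ω) ^ m.val * sb D := by
        apply mul_left_cancel₀ (mul_ne_zero (hwn m.val) D.s0)
        rw [← hm, ← map_mul, mul_comm (sb D) s, hssb, hHσ, ← hssb, hm]
        linear_combination (-s * sb D) * hpow m.val
      have hσZ : σ Z ≠ 0 := (map_ne_zero σ).2 hZ
      have r1 := D.rel hZ h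
      have r2 := D.rel hσZ (hσpt _ _ _ h)
      have c1 : σ (bP D x y Z) = ((algebraMap κ M ω) ^ 2) ^ m.val * cP D (σ x) (σ y) (σ Z) := by
        unfold bP cP
        rw [map_div₀, map_mul, map_mul, map_mul, map_mul, map_pow, map_ofNat, hlin, map_neg, hσκ,
          neg_neg, σ.commutes, hσ3, hm]
        ring
      have b1 : σ (cP D x y Z) = (algebraMap κ M ω) ^ m.val * bP D (σ x) (σ y) (σ Z) := by
        unfold bP cP
        rw [map_div₀, map_mul, map_mul, map_mul, map_mul, map_pow, map_ofNat, hlin, hσκ,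
          σ.commutes, hσs3, hs']
        ring
      rw [D.SP_eq r1, D.SP_eq r2, SS_tt D.hI D.hω r2 m (twist_rel hw3 r2 _)]
      have r3 : (σ (bP D x y Z)) ^ 3 - (σ (cP D x y Z)) ^ 3 = -2 * I := by
        rw [c1, b1]
        exact twist_rel hw3 r2 _
      rw [act_SS_neg D.hI D.hω σ hσ r1 r3]
      exact SS_ext D.hI D.hω _ _ c1 b1
    · exfalso
      rw [hσ] at h
      have h2 : (2 : M) * I = 0 := by linear_combination -h
      exact mul_ne_zero two_ne_zero (I_ne0 D.hI) h2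

end dat

end Pool.Agent.W2helper33.ZC
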