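import Mathlib
import Pool.Agent.W2helper33.ZC.Tor

/-!
# Points over extensions of degree prime to three
-/

set_option autoImplicit false
set_option linter.unusedSectionVars false

namespace Pool.Agent.W2helper33.ZC

open WeierstrassCurve
open scoped Classical
open Pool.Agent.W2helper24.TQ (Em)
open Pool.Agent.W2helper2.TQ
open Pool.Agent.TH841.SH.D (Pt act Gal)

/-- zeros of a binary cubic form over extensions of degree prime to three -/
theorem root_odd {k H : Type} [Field k] [Field H] [Algebra k H] [FiniteDimensional k H]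
    (h3 : ¬ 3 ∣ Module.finrank k H) {a b c d : k} {x y : H} (hxy : ¬ (x = 0 ∧ y = 0))
    (h : bin (algebraMap k H a) (algebraMap k H b) (algebraMap k H c) (algebraMap k H d) x y = 0) :
    ∃ x y : k, ¬ (x = 0 ∧ y = 0) ∧ bin a b c d x y = 0 := by
  by_cases ha : a = 0
  · refine ⟨1, 0, fun h => one_ne_zero h.1, ?_⟩
    unfold bin
    rw [ha]
    ring
  have hFa : algebraMap k H a ≠ 0 := (map_ne_zero _).2 ha
  have hy : y ≠ 0 := by
    rintro rfl
    unfold bin at h
    have h1 : algebraMap k H a * x ^ 3 = 0 := by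
      rw [← h]
      ring
    have h2 := (mul_eq_zero.1 h1).resolve_left hFa
    exact hxy ⟨pow_eq_zero_iff (by norm_num) |>.1 h2, rfl⟩
  set P : Cubic k := ⟨a, b, c, d⟩ with hP
  have ha' : P.a ≠ 0 := ha
  have hdeg : P.toPoly.natDegree = 3 := Cubic.natDegree_of_a_ne_zero ha'
  by_cases hroot : ∃ r : k, P.toPoly.IsRoot r
  · obtain ⟨r, hr⟩ := hroot
    refine ⟨r, 1, fun h => one_ne_zero h.2, ?_⟩
    have h1 : P.toPoly.eval r = 0 := hr
    unfold Cubic.toPoly at h1
    simp only [Polynomial.eval_add, Polynomial.eval_mul, Polynomial.eval_C, Polynomial.eval_pow,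
      Polynomial.eval_X, hP] at h1
    unfold bin
    rw [← h1]
    ring
  exfalso
  have hirr : Irreducible P.toPoly := by
    refine Polynomial.irreducible_of_degree_le_three_of_not_isRoot ?_ fun r hr => hroot ⟨r, hr⟩
    rw [hdeg]
    decide
  have hr : Polynomial.aeval (x / y) P.toPoly = 0 := by
    unfold Cubic.toPoly
    simp only [map_add, map_mul, map_pow, Polynomial.aeval_C, Polynomial.aeval_X, hP]
    unfold bin at h
    apply mul_left_cancel₀ (pow_ne_zero 3 hy)
    rw [mul_zero, ← h]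
    field_simp
  have hmin := minpoly.eq_of_irreducible hirr hr
  apply h3
  have h4 := minpoly.degree_dvd (K := k) (L := H) (x := x / y) (Algebra.IsIntegral.isIntegral _)
  rw [← hmin, Polynomial.natDegree_mul_leadingCoeff_inv _ hirr.ne_zero, hdeg] at h4
  exact h4

/-- **the relation from a point over an extension of degree prime to three** -/
theorem ext_rel {κ Lw : Type} [Field κ] [CharZero κ] [Field Lw] [CharZero Lw] (j : κ →+* Lw)
    {a b c d e t ω : κ} {i : Lw} (hi : i ^ 2 = -1) (hω : ω ^ 2 + ω + 1 = 0)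
    (ht : -16 * e ^ 2 * dsc a b c d = t ^ 6) (ht0 : t ≠ 0) (hH : b ^ 2 - 3 * a * c ≠ 0)
    {H : Type} [Field H] [Algebra κ H] [FiniteDimensional κ H] (h3 : ¬ 3 ∣ Module.finrank κ H)
    {X Y Z : H} (h0 : ¬ (X = 0 ∧ Y = 0 ∧ Z = 0))
    (h : bin (algebraMap κ H a) (algebraMap κ H b) (algebraMap κ H c) (algebraMap κ H d) X Y =
      algebraMap κ H e * Z ^ 3) {ϰ z : Lw}
    (hκ : 4 * j e * ϰ = 3 * j (1 + 2 * ω) * i * j t ^ 3)
    (hz : z = pv ϰ (j a) (j b) (j c) (j d) 1 0) :
    (∃ W : Lw, W ^ 3 = z ∨ ∃ x y : κ, y ^ 2 = x ^ 3 - 1 ∧ j y ≠ i ∧ W ^ 3 = (j y - i) * z) ∨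
    (∃ W : Lw, W ^ 3 = z⁻¹ ∨ ∃ x y : κ, y ^ 2 = x ^ 3 - 1 ∧ j y ≠ i ∧ W ^ 3 = (j y - i) * z⁻¹) := by
  have hlam : (1 + 2 * ω) ^ 2 = -3 := by linear_combination 4 * hω
  have he : e ≠ 0 := by
    rintro rfl
    apply pow_ne_zero 6 ht0
    rw [← ht]
    ring
  by_cases hZ : Z = 0
  · have hXY : ¬ (X = 0 ∧ Y = 0) := fun h1 => h0 ⟨h1.1, h1.2, hZ⟩
    rw [hZ, zero_pow (by norm_num), mul_zero] at h
    obtain ⟨x, y, hxy, hb⟩ := root_odd h3 hXY h
    exact rel_loc j hi hlam ht ht0 hH (X := x) (Y := y) (Z := 0) (fun h1 => hxy ⟨h1.1, h1.2.1⟩)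
      (by rw [hb, zero_pow (by norm_num), mul_zero]) hκ hz
  -- the algebraic closures
  let M := AlgebraicClosure κ
  have hcM : CharZero M := charZero_of_injective_algebraMap (algebraMap κ M).injective
  let _ : Algebra κ (AlgebraicClosure Lw) := ((algebraMap Lw (AlgebraicClosure Lw)).comp j).toAlgebra
  let J : M →ₐ[κ] AlgebraicClosure Lw := IsAlgClosed.lift
  let r := algebraMap Lw (AlgebraicClosure Lw)
  have hJK : ∀ x : κ, J (algebraMap κ _ x) = r (j x) := fun x => J.commutes x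
  obtain ⟨I, hI, hJI⟩ : ∃ I : M, I ^ 2 = -1 ∧ J I = r i := by
    obtain ⟨I, hI⟩ := IsAlgClosed.exists_pow_nat_eq (-1 : M) (n := 2) (by norm_num)
    have h1 : (J I) ^ 2 = -1 := by rw [← map_pow, hI, map_neg, map_one]
    have h2 : (r i) ^ 2 = -1 := by rw [← map_pow, hi, map_neg, map_one]
    have h3 : (J I - r i) * (J I + r i) = 0 := by linear_combination h1 - h2
    rcases mul_eq_zero.1 h3 with h4 | h4
    · exact ⟨I, hI, sub_eq_zero.1 h4⟩
    · exact ⟨-I, by rw [neg_sq, hI], by rw [map_neg]; linear_combination -h4⟩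
  have heM : algebraMap κ M e ≠ 0 := (map_ne_zero _).2 he
  set κM : M := 3 * algebraMap κ M (1 + 2 * ω) * I * (algebraMap κ M t) ^ 3 /
    (4 * algebraMap κ M e) with hκM
  have hκM' : 4 * algebraMap κ M e * κM =
      3 * algebraMap κ M (1 + 2 * ω) * I * (algebraMap κ M t) ^ 3 := by
    rw [hκM, mul_div_cancel₀ _ (mul_ne_zero (by norm_num) heM)]
  have hje : r (j e) ≠ 0 := (map_ne_zero r).2 ((map_ne_zero j).2 he)
  have hJκ : J κM = r ϰ := by
    apply mul_left_cancel₀ (mul_ne_zero (by norm_num : (4 : AlgebraicClosure Lw) ≠ 0) hje)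
    have h1 := congrArg J hκM'
    simp only [map_mul, map_pow, map_ofNat, hJK, hJI] at h1
    have h2 := congrArg r hκ
    simp only [map_mul, map_pow, map_ofNat] at h2
    rw [h1, h2]
  obtain ⟨s, hs⟩ := IsAlgClosed.exists_pow_nat_eq (pv κM (algebraMap κ M a) (algebraMap κ M b)
    (algebraMap κ M c) (algebraMap κ M d) 1 0) (n := 3) (by norm_num)
  have D : Dat κ M a b c d e t ω I κM s := ⟨hI, hω, ht, ht0, hH, hκM', hs⟩
  have hJs : (J s) ^ 3 = r z := by
    rw [← map_pow, hs, hz]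
    unfold pv jac bin
    simp only [map_add, map_sub, map_mul, map_div₀, map_pow, map_ofNat, hJK, map_one,
      map_zero, hJκ]
  -- the sum of the conjugates
  let Q : Pt (Em κ) M := ∑ τ : H →ₐ[κ] M, SP D (τ X) (τ Y) (τ Z)
  have hpt : ∀ τ : H →ₐ[κ] M, bin (algebraMap κ M a) (algebraMap κ M b) (algebraMap κ M c)
      (algebraMap κ M d) (τ X) (τ Y) = algebraMap κ M e * (τ Z) ^ 3 := by
    intro τ
    have h1 := congrArg τ.toRingHom h
    rw [map_bin, map_mul, map_pow] at h1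
    simp only [AlgHom.toRingHom_eq_coe, RingHom.coe_coe, τ.commutes] at h1
    exact h1
  set n := Module.finrank κ H with hn
  have hcard : Fintype.card (H →ₐ[κ] M) = n := AlgHom.card κ H M
  have hQ : ∀ σ : Gal κ, ∃ m : ZMod 3, act (Em κ) σ.toAlgHom Q = Q + n • tt κ hI m ∧
      (σ I = I → σ s = ((algebraMap κ M ω) ^ 2) ^ m.val * s) := by
    intro σ
    obtain ⟨m, h1, h2⟩ := D.action σ.toAlgHom
    refine ⟨m, ?_, h2⟩
    show act (Em κ) σ.toAlgHom (∑ τ : H →ₐ[κ] M, SP D (τ X) (τ Y) (τ Z)) = _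
    rw [map_sum]
    have h5 : ∀ τ : H →ₐ[κ] M, act (Em κ) σ.toAlgHom (SP D (τ X) (τ Y) (τ Z)) =
        SP D ((σ.toAlgHom.comp τ) X) ((σ.toAlgHom.comp τ) Y) ((σ.toAlgHom.comp τ) Z) +
          tt κ hI m := fun τ => h1 _ _ _ ((map_ne_zero τ).2 hZ) (hpt τ)
    rw [Finset.sum_congr rfl fun τ _ => h5 τ, Finset.sum_add_distrib, Finset.sum_const,
      Finset.card_univ, hcard]
    congr 1
    let E : (H →ₐ[κ] M) ≃ (H →ₐ[κ] M) :=
      { toFun := fun τ => σ.toAlgHom.comp τ
        invFun := fun τ => σ.symm.toAlgHom.comp τ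
        left_inv := fun τ => AlgHom.ext fun x => σ.symm_apply_apply _
        right_inv := fun τ => AlgHom.ext fun x => σ.apply_symm_apply _ }
    exact E.sum_comp fun τ => SP D (τ X) (τ Y) (τ Z)
  have h3tt : ∀ m : ZMod 3, (3 : ℕ) • tt κ hI m = 0 := by
    intro m
    unfold tt
    rw [smul_comm, Tp_three hI hω, smul_zero]
  have hQ2 : ∀ σ : Gal κ, ∃ m : ZMod 3, act (Em κ) σ.toAlgHom (n • Q) = n • Q + tt κ hI m ∧
      (σ I = I → σ s = ((algebraMap κ M ω) ^ 2) ^ m.val * s) := by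
    intro σ
    obtain ⟨m, h1, h2⟩ := hQ σ
    refine ⟨m, ?_, h2⟩
    rw [map_nsmul, h1, nsmul_add, smul_smul]
    congr 1
    have h5 : ∃ q : ℕ, n * n = 3 * q + 1 := by
      have h6 : n % 3 = 1 ∨ n % 3 = 2 := by omega
      refine ⟨n * n / 3, ?_⟩
      have h7 : n * n % 3 = 1 := by
        rcases h6 with h6 | h6 <;> rw [Nat.mul_mod, h6]
      omega
    obtain ⟨q, hq⟩ := h5
    rw [hq, add_nsmul, one_nsmul, mul_comm, mul_nsmul', h3tt, smul_zero, zero_add]
  obtain ⟨P, hP, hPT⟩ : ∃ P : Pt (Em κ) M, (∀ σ : Gal κ, ∃ m : ZMod 3,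
      act (Em κ) σ.toAlgHom P = P + tt κ hI m ∧
      (σ I = I → σ s = ((algebraMap κ M ω) ^ 2) ^ m.val * s)) ∧ ps hω M P ≠ Tp κ hI := by
    by_cases hT : ps hω M (n • Q) = Tp κ hI
    · refine ⟨n • Q + Sp κ M, fun σ => ?_, ?_⟩
      · obtain ⟨m, h1, h2⟩ := hQ2 σ
        refine ⟨m, ?_, h2⟩
        rw [map_add, act_Sp, h1]
        abel
      · rw [map_add, hT]
        intro h
        exact ps_Sp hω (left_eq_add.1 h.symm)
    · exact ⟨n • Q, hQ2, hT⟩
  have hw3 := w3 (M := M) hω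
  have hs0 : s ≠ 0 := D.s0
  have hwn : ∀ n : ℕ, ((algebraMap κ M ω) ^ 2) ^ n ≠ 0 := by
    intro n
    refine pow_ne_zero _ (pow_ne_zero _ ((map_ne_zero _).2 ?_))
    rintro rfl
    exact one_ne_zero (α := κ) (by linear_combination hω)
  obtain ⟨Z', hZ'fix, hZ'⟩ : ∃ Z' : M, (∀ σ : Gal κ, σ I = I → σ Z' = Z') ∧
      (Z' ^ 3 = s ^ 3 ∨ ∃ x y : κ, y ^ 2 = x ^ 3 - 1 ∧ algebraMap κ M y ≠ I ∧
        Z' ^ 3 = (algebraMap κ M y - I) * (s ^ 3)⁻¹) := by
    by_cases hp : ps hω M P = 0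
    · refine ⟨s, fun σ hσ => ?_, Or.inl rfl⟩
      obtain ⟨m, h1, h2⟩ := hP σ
      obtain ⟨u, hu⟩ := ker_tt hI hω hp
      rw [hu, act_tt hI hI σ.toAlgHom hσ] at h1
      have h4 : tt κ hI m = 0 := left_eq_add.1 h1
      have h5 : m = 0 := tt_inj hI hω (by rw [h4, tt_zero])
      rw [h2 hσ, h5, ZMod.val_zero, pow_zero, one_mul]
    · obtain ⟨x, hnn, hx⟩ := ps_coord hI hω hp
      have hfixR : ∀ σ : Gal κ, σ x = x ∧ σ (I + gk ω I P ^ 3) = I + gk ω I P ^ 3 := by
        intro σ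
        obtain ⟨m, h1, h2⟩ := hP σ
        have h4 : act (Em κ) σ.toAlgHom (ps hω _ P) = ps hω _ P := by
          rw [act_ps, h1, map_add, ps_tt, add_zero]
        rw [hx] at h4
        exact pt_ext.1 h4
      obtain ⟨x₀, hx₀⟩ := fixm x fun σ => (hfixR σ).1
      obtain ⟨y₀, hy₀⟩ := fixm _ fun σ => (hfixR σ).2
      refine ⟨gk ω I P * s⁻¹, fun σ hσ => ?_, Or.inr ⟨x₀, y₀, ?_, ?_, ?_⟩⟩
      · obtain ⟨m, h1, h2⟩ := hP σ
        have h4 : σ (gk ω I P) = ((algebraMap κ M ω) ^ 2) ^ m.val * gk ω I P := by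
          have h5 := gk_act σ.toAlgHom ω I P
          have h6 : σ.toAlgHom I = I := hσ
          rw [h6, h1, gk_tt hI hω hp] at h5
          exact h5
        rw [map_mul, map_inv₀, h4, h2 hσ, mul_inv]
        field_simp [hwn m.val]
      · apply (algebraMap κ M).injective
        have h5 := ((isEb κ M).eqn _ _).1 hnn.1
        rw [map_pow, map_sub, map_pow, map_one, hx₀, hy₀]
        exact h5
      · rw [hy₀]
        intro h
        exact pow_ne_zero 3 (gk_ne hI hω hp hPT) (left_eq_add.1 h.symm)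
      · rw [hy₀, mul_pow, inv_pow]
        ring
  obtain ⟨A, B, hAB⟩ := stab2 hI Z' hZ'fix
  have hJZ : r (j A + j B * i) = J Z' := by
    rw [hAB, map_add, map_mul, map_add, map_mul, hJK, hJK, hJI]
  have hinj := r.injective
  rcases hZ' with h1 | ⟨x, y, hxy, hyI, h1⟩
  · left
    refine ⟨j A + j B * i, Or.inl ?_⟩
    apply hinj
    rw [map_pow, hJZ, ← map_pow, h1, map_pow, hJs]
  · right
    refine ⟨j A + j B * i, Or.inr ⟨x, y, hxy, fun h => hyI (J.injective ?_), hinj ?_⟩⟩
    · show J (algebraMap κ M y) = J I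
      rw [hJI, ← h]
      exact hJK y
    have h2 : J ((algebraMap κ M y - I) * (s ^ 3)⁻¹) = (r (j y) - r i) * (r z)⁻¹ := by
      rw [map_mul, map_sub, hJI, hJK, map_inv₀, map_pow, hJs]
    rw [map_pow, hJZ, ← map_pow, h1, h2, map_mul, map_sub, map_inv₀]

/-- transfer of a finite extension of degree prime to three to a larger field -/
theorem ext_up {κ κ' : Type} [Field κ] [CharZero κ] [Field κ'] (j : κ →+* κ')
    (H : Type) [Field H] [Algebra κ H] [FiniteDimensional κ H] (h3 : ¬ 3 ∣ Module.finrank κ H) :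
    ∃ (H' : Type) (_ : Field H') (_ : Algebra κ' H') (φ : H →+* H'),
      FiniteDimensional κ' H' ∧ ¬ 3 ∣ Module.finrank κ' H' ∧
      ∀ x : κ, φ (algebraMap κ H x) = algebraMap κ' H' (j x) := by
  obtain ⟨β, hβ⟩ := Field.exists_primitive_element κ H
  have hint : IsIntegral κ β := Algebra.IsIntegral.isIntegral β
  set m := minpoly κ β with hm
  have hmd : m.natDegree = Module.finrank κ H := by
    rw [← IntermediateField.finrank_top' (F := κ) (E := H), ← hβ,
      IntermediateField.adjoin.finrank hint]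
  have hmon : m.Monic := minpoly.monic hint
  set m' := m.map j with hm'
  have hmon' : m'.Monic := hmon.map j
  have hmd' : m'.natDegree = Module.finrank κ H := by
    rw [hm', hmon.natDegree_map, hmd]
  -- an irreducible factor of degree prime to three
  obtain ⟨g, hg, hgm, hg3⟩ : ∃ g : Polynomial κ', Irreducible g ∧ g ∣ m' ∧ ¬ 3 ∣ g.natDegree := by
    by_contra hcon
    push Not at hcon
    apply h3
    rw [← hmd']
    have key : ∀ S : Multiset (Polynomial κ'), (∀ g ∈ S, Irreducible g ∧ 3 ∣ g.natDegree) →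
        3 ∣ S.prod.natDegree := by
      intro S
      induction S using Multiset.induction with
      | empty =>
        intro _
        rw [Multiset.prod_zero, Polynomial.natDegree_one]
        exact dvd_zero 3
      | cons a S ih =>
        intro hS
        rw [Multiset.prod_cons]
        have h1 := hS a (Multiset.mem_cons_self a S)
        have h2 : S.prod ≠ 0 := by
          intro h4
          have h5 := Multiset.prod_eq_zero_iff.1 h4
          exact (hS 0 (Multiset.mem_cons_of_mem h5)).1.ne_zero rfl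
        rw [Polynomial.natDegree_mul h1.1.ne_zero h2]
        exact dvd_add h1.2 (ih fun g hg => hS g (Multiset.mem_cons_of_mem hg))
    obtain ⟨S, hS, hassoc⟩ := WfDvdMonoid.exists_factors m' hmon'.ne_zero
    have h4 := key S fun g hg => ⟨hS g hg,
      hcon g (hS g hg) ((Multiset.dvd_prod hg).trans hassoc.dvd)⟩
    rw [Polynomial.natDegree_eq_of_degree_eq (Polynomial.degree_eq_degree_of_associated hassoc)] at h4
    exact h4
  haveI : Fact (Irreducible g) := ⟨hg⟩
  let H' := AdjoinRoot g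
  have pb := AdjoinRoot.powerBasis hg.ne_zero
  have hfin : FiniteDimensional κ' H' := (AdjoinRoot.powerBasis hg.ne_zero).finite
  have hfr : Module.finrank κ' H' = g.natDegree := by
    rw [(AdjoinRoot.powerBasis hg.ne_zero).finrank, AdjoinRoot.powerBasis_dim]
  let i' : κ →+* H' := (algebraMap κ' H').comp j
  let _ : Algebra κ H' := i'.toAlgebra
  have hroot : Polynomial.aeval (AdjoinRoot.root g) m = 0 := by
    have h4 : Polynomial.eval₂ (algebraMap κ' H') (AdjoinRoot.root g) m' = 0 := by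
      obtain ⟨q, hq⟩ := hgm
      rw [hq, Polynomial.eval₂_mul]
      have h5 : Polynomial.eval₂ (algebraMap κ' H') (AdjoinRoot.root g) g = 0 :=
        AdjoinRoot.eval₂_root g
      rw [h5, zero_mul]
    rw [hm', Polynomial.eval₂_map] at h4
    exact h4
  let e1 : IntermediateField.adjoin κ {β} →ₐ[κ] H' :=
    (IntermediateField.algHomAdjoinIntegralEquiv κ hint).symm ⟨AdjoinRoot.root g, by
      rw [Polynomial.mem_aroots]
      exact ⟨minpoly.ne_zero hint, hroot⟩⟩
  have htop : ∀ x : H, x ∈ IntermediateField.adjoin κ {β} := by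
    intro x
    rw [hβ]
    exact IntermediateField.mem_top
  let e2 : H →ₐ[κ] IntermediateField.adjoin κ {β} :=
    { toFun := fun x => ⟨x, htop x⟩
      map_one' := rfl
      map_mul' := fun _ _ => rfl
      map_zero' := rfl
      map_add' := fun _ _ => rfl
      commutes' := fun _ => rfl }
  refine ⟨H', inferInstance, inferInstance, (e1.comp e2).toRingHom, hfin, by rwa [hfr],
    fun x => ?_⟩
  exact (e1.comp e2).commutes x

end Pool.Agent.W2helper33.ZC
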