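import Mathlib
import Pool.Agent.W2helper33.ZC.Ext

/-!
# The curves `g(x, y) = e z³` over the fields `k`
-/

set_option autoImplicit false
set_option linter.unusedSectionVars false

namespace Pool.Agent.W2helper33.ZC

open NumberField IsDedekindDomain WithZero
open scoped Classical
open Pool.Agent.Y696 (und und_lies mem_under_of_lies)
open Pool.Agent.W2helper24.TQ
open Pool.Agent.W2helper2.TQ

/-- the equation of the binary type, with the coefficients mapped by `f` -/
def QB {k : Type} [Field k] (a b c d e : k) {H : Type} [Field H] (f : k →+* H) (X Y Z : H) : Prop :=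
  bin (f a) (f b) (f c) (f d) X Y = f e * Z ^ 3

/-- a solution over an extension of `κ` of degree prime to three -/
def HasPt {k κ : Type} [Field k] [Field κ] (f : k →+* κ)
    (Q : ∀ (H : Type) [Field H], (k →+* H) → H → H → H → Prop) : Prop :=
  ∃ (H : Type) (_ : Field H) (_ : Algebra κ H), FiniteDimensional κ H ∧
    ¬ 3 ∣ Module.finrank κ H ∧ ∃ X Y Z : H, ¬ (X = 0 ∧ Y = 0 ∧ Z = 0) ∧
      Q H ((algebraMap κ H).comp f) X Y Z

/-- zeros of binary cubic forms descend if the discriminant is minus a square -/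
theorem root_down {k F : Type} [Field k] [CharZero k] [Field F] [Algebra k F] [Normal k F]
    (hi : ∀ y : F, y ^ 2 ≠ -1) {a b c d : k} {δ : F} (hδ : algebraMap k F (dsc a b c d) = -δ ^ 2)
    (hδ0 : δ ≠ 0) {x y : F} (hxy : ¬ (x = 0 ∧ y = 0))
    (h : bin (algebraMap k F a) (algebraMap k F b) (algebraMap k F c) (algebraMap k F d) x y = 0) :
    ∃ x y : k, ¬ (x = 0 ∧ y = 0) ∧ bin a b c d x y = 0 := by
  by_cases ha : a = 0
  · refine ⟨1, 0, fun h => one_ne_zero h.1, ?_⟩
    unfold bin
    rw [ha]
    ring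
  have hFa : algebraMap k F a ≠ 0 := (map_ne_zero _).2 ha
  have hy : y ≠ 0 := by
    rintro rfl
    unfold bin at h
    have h1 : algebraMap k F a * x ^ 3 = 0 := by
      rw [← h]
      ring
    have h2 := (mul_eq_zero.1 h1).resolve_left hFa
    exact hxy ⟨pow_eq_zero_iff (by norm_num) |>.1 h2, rfl⟩
  set P : Cubic k := ⟨a, b, c, d⟩ with hP
  have ha' : P.a ≠ 0 := ha
  have hdeg : P.toPoly.natDegree = 3 := Cubic.natDegree_of_a_ne_zero ha'
  by_cases hroot : ∃ r : k, P.toPoly.IsRoot r
  · obtain ⟨r, hr⟩ := hroot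
    refine ⟨r, 1, fun h => one_ne_zero h.2, ?_⟩
    have h1 : P.toPoly.eval r = 0 := hr
    unfold Cubic.toPoly at h1
    simp only [Polynomial.eval_add, Polynomial.eval_mul, Polynomial.eval_C, Polynomial.eval_pow,
      Polynomial.eval_X, hP] at h1
    unfold bin
    rw [← h1]
    ring
  exfalso
  have hirr : Irreducible P.toPoly := by
    refine Polynomial.irreducible_of_degree_le_three_of_not_isRoot ?_ fun r hr => hroot ⟨r, hr⟩
    rw [hdeg]
    decide
  have hr : Polynomial.aeval (x / y) P.toPoly = 0 := by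
    unfold Cubic.toPoly
    simp only [map_add, map_mul, map_pow, Polynomial.aeval_C, Polynomial.aeval_X, hP]
    unfold bin at h
    apply mul_left_cancel₀ (pow_ne_zero 3 hy)
    rw [mul_zero, ← h]
    field_simp
  have hmin := minpoly.eq_of_irreducible hirr hr
  have hs := Normal.splits (inferInstance : Normal k F) (x / y)
  rw [← hmin, Polynomial.map_mul, Polynomial.map_C] at hs
  have hlc : (algebraMap k F) P.toPoly.leadingCoeff⁻¹ ≠ 0 :=
    (map_ne_zero _).2 (inv_ne_zero (Polynomial.leadingCoeff_ne_zero.2 hirr.ne_zero))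
  have hs2 : (P.toPoly.map (algebraMap k F)).Splits := by
    have h1 := hs.C_mul ((algebraMap k F) P.toPoly.leadingCoeff⁻¹)⁻¹
    rw [mul_comm (P.toPoly.map _), ← mul_assoc, ← Polynomial.C_mul, inv_mul_cancel₀ hlc,
      Polynomial.C_1, one_mul] at h1
    exact h1
  obtain ⟨r1, r2, r3, h3⟩ := (Cubic.splits_iff_roots_eq_three ha').1 hs2
  have hd := Cubic.discr_eq_prod_three_roots ha' h3
  have hd2 : P.discr = dsc a b c d := rfl
  rw [hd2, hδ] at hd
  set s := (algebraMap k F) P.a * (algebraMap k F) P.a * (r1 - r2) * (r1 - r3) * (r2 - r3)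
  refine hi (s / δ) ?_
  rw [div_pow, ← hd]
  field_simp

/-- **the theorem over `F`** -/
theorem stageF {K F : Type} [Field K] [NumberField K] [IsCyclotomicExtension {3} ℚ K]
    [Field F] [NumberField F] [Algebra K F] [IsGalois K F] {n : ℕ}
    (hn : Module.finrank K F = 3 ^ n) (hR : Ram K F) {a b c d e t : F}
    (ht : -16 * e ^ 2 * dsc a b c d = t ^ 6) (ht0 : t ≠ 0)
    (hloc : ∀ v : HeightOneSpectrum (𝓞 F), HasPt (algebraMap F (v.adicCompletion F))
      fun _ _ f X Y Z => QB a b c d e f X Y Z) :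
    (∃ x y : F, ¬ (x = 0 ∧ y = 0) ∧ bin a b c d x y = 0) ∧ ∀ y : F, y ^ 2 ≠ -1 := by
  obtain ⟨M, _, _, _, L, _, _, _, _, _, _, _, i, σM, σ, hcyc, hgal, T⟩ :=
    Pool.Agent.W2helper15.TQ.piece K F n hn
  have hno : ∀ y : F, y ^ 2 ≠ -1 := by
    intro y hy
    have h1 : (algebraMap F L y - algebraMap M L i) * (algebraMap F L y + algebraMap M L i) = 0 := by
      have h2 : (algebraMap F L y) ^ 2 = -1 := by rw [← map_pow, hy, map_neg, map_one]
      have h3 : (algebraMap M L i) ^ 2 = -1 := by rw [← map_pow, T.hi, map_neg, map_one]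
      linear_combination h2 - h3
    rcases mul_eq_zero.1 h1 with h2 | h2
    · exact T.not y (sub_eq_zero.1 h2)
    · refine T.not (-y) ?_
      rw [map_neg]
      linear_combination -h2
  refine ⟨?_, hno⟩
  obtain ⟨ζ, hζ⟩ := IsCyclotomicExtension.exists_isPrimitiveRoot ℚ K
    (Set.mem_singleton 3) (by norm_num)
  have hζ2 : ζ ^ 2 + ζ + 1 = 0 := by
    have h3 : ζ ^ 3 = 1 := hζ.pow_eq_one
    have h4 : ζ ≠ 1 := hζ.ne_one (by norm_num)
    have h5 : (ζ - 1) * (ζ ^ 2 + ζ + 1) = 0 := by linear_combination h3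
    exact (mul_eq_zero.1 h5).resolve_left (sub_ne_zero.2 h4)
  set ωF : F := algebraMap K F ζ with hωF
  have hω : ωF ^ 2 + ωF + 1 = 0 := by
    rw [hωF, ← map_pow, ← map_add, ← map_one (algebraMap K F), ← map_add, hζ2, map_zero]
  set θ : F := 1 + 2 * ωF with hθd
  have hθ : θ ^ 2 = -3 := by rw [hθd]; linear_combination 4 * hω
  have hθ0 : θ ≠ 0 := by
    intro h
    rw [h, zero_pow (by norm_num)] at hθ
    exact three_ne_zero (α := F) (by linear_combination hθ)
  have he : e ≠ 0 := by
    rintro rfl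
    apply pow_ne_zero 6 ht0
    rw [← ht]
    ring
  have hD0 : dsc a b c d ≠ 0 := by
    intro h
    apply pow_ne_zero 6 ht0
    rw [← ht, h, mul_zero]
  obtain ⟨r1, -, -⟩ := a7 K F n hn hR M L i σM σ T
  have hi : (algebraMap M L i) ^ 2 = -1 := by rw [← map_pow, T.hi, map_neg, map_one]
  set I := algebraMap M L i with hI
  have hI0 : I ≠ 0 := by
    intro h
    rw [h, zero_pow (by norm_num)] at hi
    exact one_ne_zero (α := L) (by linear_combination hi)
  have hv3 : ∀ w : HeightOneSpectrum (𝓞 L), (3 : 𝓞 L) ∈ w.asIdeal →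
      w.valuation L 3 = exp (-2 : ℤ) := fun w hw => val_three_L hR T hw
  -- the element
  set f : F := 3 * θ * t ^ 3 / (4 * e) with hf
  have hf0 : f ≠ 0 := div_ne_zero (mul_ne_zero (mul_ne_zero three_ne_zero hθ0) (pow_ne_zero _ ht0))
    (mul_ne_zero (by norm_num) he)
  set κ : L := I * algebraMap F L f with hκ
  have hσI : σ I = -I := T.sL
  have hσκ : σ κ = -κ := by rw [hκ, map_mul, hσI, AlgEquiv.commutes, neg_mul]
  set z : L := pv κ (algebraMap F L a) (algebraMap F L b) (algebraMap F L c) (algebraMap F L d) 1 0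
    with hz
  have hzval : 2 * z = algebraMap F L (9 * a * b * c - 27 * a ^ 2 * d - 2 * b ^ 3) +
      algebraMap F L (f * a) * I := by
    rw [hz, hκ]
    unfold pv jac bin
    simp only [map_sub, map_mul, map_pow, map_ofNat]
    ring
  have hz0 : z ≠ 0 := by
    intro h
    rw [h, mul_zero] at hzval
    by_cases hfa : f * a = 0
    · have ha : a = 0 := (mul_eq_zero.1 hfa).resolve_left hf0
      rw [hfa, map_zero, zero_mul, add_zero] at hzval
      have h1 := (map_eq_zero (algebraMap F L)).1 hzval.symm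
      rw [ha] at h1
      have h2 : b ^ 3 = 0 := by linear_combination (-1 / 2) * h1
      have hb : b = 0 := pow_eq_zero_iff (by norm_num) |>.1 h2
      apply hD0
      unfold dsc
      rw [ha, hb]
      ring
    · refine T.not (-(9 * a * b * c - 27 * a ^ 2 * d - 2 * b ^ 3) / (f * a)) ?_
      rw [map_div₀, map_neg, div_eq_iff ((map_ne_zero _).2 hfa)]
      linear_combination hzval
  have hκ2 : κ ^ 2 = -27 * dsc (algebraMap F L a) (algebraMap F L b) (algebraMap F L c)
      (algebraMap F L d) := by
    have h1 : f ^ 2 = 27 * dsc a b c d := by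
      rw [hf, div_pow, div_eq_iff (pow_ne_zero 2 (mul_ne_zero (by norm_num) he))]
      calc (3 * θ * t ^ 3) ^ 2 = 9 * θ ^ 2 * t ^ 6 := by ring
        _ = 27 * dsc a b c d * (4 * e) ^ 2 := by rw [hθ, ← ht]; ring
    rw [hκ, mul_pow, hi, ← map_pow, h1, map_mul, map_ofNat, map_dsc]
    ring
  have hκ2' : (-κ) ^ 2 = -27 * dsc (algebraMap F L a) (algebraMap F L b) (algebraMap F L c)
      (algebraMap F L d) := by rw [neg_sq, hκ2]
  have hσpv : ∀ x y : F, σ (pv κ (algebraMap F L a) (algebraMap F L b) (algebraMap F L c)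
      (algebraMap F L d) (algebraMap F L x) (algebraMap F L y)) =
      pv (-κ) (algebraMap F L a) (algebraMap F L b) (algebraMap F L c)
      (algebraMap F L d) (algebraMap F L x) (algebraMap F L y) := by
    intro x y
    unfold pv
    rw [← map_jac, ← map_bin, map_div₀, map_add, map_mul, AlgEquiv.commutes, AlgEquiv.commutes,
      hσκ, map_ofNat]
  have hσz : σ z = pv (-κ) (algebraMap F L a) (algebraMap F L b) (algebraMap F L c)
      (algebraMap F L d) 1 0 := by
    have h1 := hσpv 1 0
    rw [map_one, map_zero] at h1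
    exact h1
  have hprod : z * σ z = (algebraMap F L (b ^ 2 - 3 * a * c)) ^ 3 := by
    rw [hσz, hz, pv_mul hκ2]
    unfold hes
    simp only [map_sub, map_mul, map_pow, map_ofNat]
    ring
  have hH : b ^ 2 - 3 * a * c ≠ 0 := by
    intro h
    rw [h, map_zero, zero_pow (by norm_num)] at hprod
    rcases mul_eq_zero.1 hprod with h1 | h1
    · exact hz0 h1
    · exact hz0 ((map_eq_zero σ).1 h1)
  -- the local conditions
  have hsel : Sel z := by
    refine sel_of_cnd hz0 fun w => ?_
    obtain ⟨j, hj, hle, hlt⟩ := exists_j (F := F) w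
    obtain ⟨H, _, _, hfinH, h3H, X, Y, Z, hXYZ, hloc'⟩ := hloc (und (F := F) w)
    have hzw0 : algebraMap L (w.adicCompletion L) z ≠ 0 := (map_ne_zero _).2 hz0
    have hc1 : CharZero ((und (F := F) w).adicCompletion F) :=
      charZero_of_injective_algebraMap (algebraMap F _).injective
    have hc2 : CharZero (w.adicCompletion L) :=
      charZero_of_injective_algebraMap (algebraMap L _).injective
    have hrel := ext_rel j (i := algebraMap L _ I) (ω := algebraMap F _ ωF)
      (t := algebraMap F _ t) (e := algebraMap F _ e) (a := algebraMap F _ a)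
      (b := algebraMap F _ b) (c := algebraMap F _ c) (d := algebraMap F _ d)
      (ϰ := algebraMap L _ κ) (z := algebraMap L _ z)
      (by rw [← map_pow, hi, map_neg, map_one])
      (by
        rw [← map_pow, ← map_add, ← map_one (algebraMap F ((und (F := F) w).adicCompletion F)),
          ← map_add, hω, map_zero])
      (by
        have h1 := congrArg (algebraMap F ((und (F := F) w).adicCompletion F)) ht
        rw [map_mul, map_mul, map_pow, map_pow, map_neg, map_ofNat, map_dsc] at h1
        exact h1)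
      ((map_ne_zero _).2 ht0)
      (by
        have h1 : algebraMap F ((und (F := F) w).adicCompletion F) (b ^ 2 - 3 * a * c) ≠ 0 :=
          (map_ne_zero _).2 hH
        rw [map_sub, map_mul, map_mul, map_pow, map_ofNat] at h1
        exact h1) h3H hXYZ hloc'
      (by
        have hθj : j (1 + 2 * algebraMap F ((und (F := F) w).adicCompletion F) ωF) =
            algebraMap L (w.adicCompletion L) (algebraMap F L θ) := by
          rw [← hj θ, hθd]
          simp only [map_add, map_mul, map_one, map_ofNat]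
        rw [hθj, hj, hj, hκ, map_mul, hf]
        have he' : algebraMap L (w.adicCompletion L) (algebraMap F L e) ≠ 0 :=
          (map_ne_zero _).2 ((map_ne_zero _).2 he)
        simp only [map_div₀, map_mul, map_pow, map_ofNat]
        field_simp)
      (by
        rw [hj, hj, hj, hj, hz]
        unfold pv jac bin
        simp only [map_div₀, map_add, map_sub, map_mul, map_pow, map_ofNat, map_one, map_zero])
    rcases hrel with h1 | h1
    · exact cnd_of_rel hi r1 hv3 w hzw0 hle hlt h1
    · exact (cnd_of_rel hi r1 hv3 w (inv_ne_zero hzw0) hle hlt h1).inv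
  obtain ⟨A, hA⟩ := cube_of_sel hR T hn hsel ⟨_, hprod⟩
  have hA0 : A ≠ 0 := by
    rintro rfl
    rw [zero_pow (by norm_num)] at hA
    exact hz0 hA
  -- the linear form
  set B : L := ((18 * algebraMap F L a * algebraMap F L c ^ 2 -
    27 * algebraMap F L a * algebraMap F L b * algebraMap F L d -
    3 * algebraMap F L b ^ 2 * algebraMap F L c) + κ * algebraMap F L b) / 6 / A ^ 2 with hB
  have hlin : ∀ x y : F, pv κ (algebraMap F L a) (algebraMap F L b) (algebraMap F L c)
      (algebraMap F L d) (algebraMap F L x) (algebraMap F L y) =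
      (A * algebraMap F L x + B * algebraMap F L y) ^ 3 := by
    intro x y
    have h1 := pv_cube hκ2 (algebraMap F L x) (algebraMap F L y)
    rw [← hz] at h1
    apply mul_right_cancel₀ (pow_ne_zero 2 hz0)
    rw [h1]
    unfold lin
    rw [← hz, hB, hA]
    field_simp
  obtain ⟨A1, A2, hA12⟩ := T.gen A
  obtain ⟨B1, B2, hB12⟩ := T.gen B
  have hkey : ∀ x y : F, A2 * x + B2 * y = 0 → bin a b c d x y = 0 := by
    intro x y hxy
    have h1 : A * algebraMap F L x + B * algebraMap F L y = algebraMap F L (A1 * x + B1 * y) := by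
      have h2 := congrArg (algebraMap F L) hxy
      rw [map_add, map_mul, map_mul, map_zero] at h2
      rw [hA12, hB12, map_add, map_mul, map_mul]
      linear_combination I * h2
    have h2 := hσpv x y
    rw [hlin, h1, ← map_pow, AlgEquiv.commutes, map_pow, ← h1, ← hlin] at h2
    unfold pv at h2
    have h3 : κ * algebraMap F L (bin a b c d x y) = 0 := by
      rw [map_bin]
      linear_combination h2
    have hκ0 : κ ≠ 0 := mul_ne_zero hI0 ((map_ne_zero _).2 hf0)
    exact (map_eq_zero (algebraMap F L)).1 ((mul_eq_zero.1 h3).resolve_left hκ0)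
  by_cases h : A2 = 0 ∧ B2 = 0
  · refine ⟨1, 0, fun h1 => one_ne_zero h1.1, hkey 1 0 ?_⟩
    rw [h.1]
    ring
  · refine ⟨B2, -A2, fun h1 => h ⟨by simpa using h1.2, h1.1⟩, hkey _ _ ?_⟩
    ring

/-- local points over a larger field -/
lemma loc_up {k F : Type} [Field k] [NumberField k] [Field F] [NumberField F] [Algebra k F]
    {a b c d e : k} (hloc : ∀ v : HeightOneSpectrum (𝓞 k), HasPt (algebraMap k (v.adicCompletion k))
      fun _ _ f X Y Z => QB a b c d e f X Y Z) (v : HeightOneSpectrum (𝓞 F)) :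
    HasPt (algebraMap F (v.adicCompletion F)) fun _ _ f X Y Z =>
      QB (algebraMap k F a) (algebraMap k F b) (algebraMap k F c) (algebraMap k F d)
        (algebraMap k F e) f X Y Z := by
  obtain ⟨j, hj, -, -⟩ := exists_j (F := k) v
  obtain ⟨H, _, _, hfin, h3, X, Y, Z, h0, h⟩ := hloc (und (F := k) v)
  have hc1 : CharZero ((und (F := k) v).adicCompletion k) :=
    charZero_of_injective_algebraMap (algebraMap k _).injective
  obtain ⟨H', _, _, φ, hfin', h3', hφ⟩ := ext_up j H h3
  refine ⟨H', inferInstance, inferInstance, hfin', h3', φ X, φ Y, φ Z,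
    fun h1 => h0 ⟨(map_eq_zero φ).1 h1.1, (map_eq_zero φ).1 h1.2.1, (map_eq_zero φ).1 h1.2.2⟩, ?_⟩
  have h1 := congrArg φ h
  unfold QB
  simp only [RingHom.comp_apply] at h1 ⊢
  rw [map_bin, map_mul, map_pow, hφ, hφ, hφ, hφ, hφ, hj, hj, hj, hj, hj] at h1
  exact h1

/-- **the theorem over `k`, binary forms** -/
theorem stageK {K F k : Type} [Field K] [NumberField K] [IsCyclotomicExtension {3} ℚ K]
    [Field F] [NumberField F] [Algebra K F] [IsGalois K F] [Field k] [NumberField k] [Algebra k F]
    [Normal k F] {n : ℕ} (hn : Module.finrank K F = 3 ^ n) (hR : Ram K F) {a b c d e : k} {t : F}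
    (ht : -16 * (algebraMap k F e) ^ 2 * dsc (algebraMap k F a) (algebraMap k F b)
      (algebraMap k F c) (algebraMap k F d) = t ^ 6) (ht0 : t ≠ 0)
    (hloc : ∀ v : HeightOneSpectrum (𝓞 k), HasPt (algebraMap k (v.adicCompletion k))
      fun _ _ f X Y Z => QB a b c d e f X Y Z) :
    ∃ x y : k, ¬ (x = 0 ∧ y = 0) ∧ bin a b c d x y = 0 := by
  obtain ⟨⟨x, y, hxy, h⟩, hno⟩ := stageF hn hR ht ht0 (fun v => loc_up hloc v)
  have he : algebraMap k F e ≠ 0 := by
    intro h
    apply pow_ne_zero 6 ht0
    rw [← ht, h]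
    ring
  refine root_down hno (δ := t ^ 3 / (4 * algebraMap k F e)) ?_ ?_ hxy h
  · rw [map_dsc, div_pow]
    field_simp
    linear_combination -ht
  · exact div_ne_zero (pow_ne_zero _ ht0) (mul_ne_zero (by norm_num) he)

end Pool.Agent.W2helper33.ZC
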