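import Mathlib
import Pool.Agent.W2helper33.ZC.Red

/-!
# Ternary cubic forms `Tr (α x³)`
-/

set_option autoImplicit false
set_option linter.unusedSectionVars false

namespace Pool.Agent.W2helper33.ZC

open NumberField IsDedekindDomain WithZero
open scoped Classical
open Pool.Agent.W2helper24.TQ

section defs
variable {R : Type} [CommRing R]

/-- the third member of the recurring sequence -/
def nx (p q r a b c : R) : R := -(p * c + q * b + r * a)

/-- the Hankel determinant -/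
def hank (a b c d e : R) : R := a * c * e + 2 * b * c * d - c ^ 3 - b ^ 2 * e - a * d ^ 2

/-- the determinant of the trace form -/
def DH (p q r T0 T1 T2 : R) : R :=
  hank T0 T1 T2 (nx p q r T0 T1 T2) (nx p q r T1 T2 (nx p q r T0 T1 T2))

/-- the ternary cubic form `Λ((x + y θ + z θ²)³)`, `Λ(θ^n) = T_n`, `θ³ + p θ² + q θ + r = 0` -/
def ter (p q r T0 T1 T2 x y z : R) : R :=
  let T3 := nx p q r T0 T1 T2
  let T4 := nx p q r T1 T2 T3
  let T5 := nx p q r T2 T3 T4
  let T6 := nx p q r T3 T4 T5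
  T0 * x ^ 3 + 3 * T1 * x ^ 2 * y + 3 * T2 * (x ^ 2 * z + x * y ^ 2) + T3 * (y ^ 3 + 6 * x * y * z) +
    3 * T4 * (y ^ 2 * z + x * z ^ 2) + 3 * T5 * y * z ^ 2 + T6 * z ^ 3

/-- the product, first coordinate -/
def m0 (p q r x y z x' y' z' : R) : R := x * x' - r * (y * z' + z * y') + p * r * (z * z')
/-- the product, second coordinate -/
def m1 (p q r x y z x' y' z' : R) : R :=
  x * y' + y * x' - q * (y * z' + z * y') + (p * q - r) * (z * z')
/-- the product, third coordinate -/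
def m2 (p q r x y z x' y' z' : R) : R :=
  x * z' + y * y' + z * x' - p * (y * z' + z * y') + (p ^ 2 - q) * (z * z')

/-- the norm -/
def nrm (p q r x y z : R) : R :=
  x ^ 3 - p * x ^ 2 * y + (p ^ 2 - 2 * q) * x ^ 2 * z + q * x * y ^ 2 + (3 * r - p * q) * x * y * z +
    (q ^ 2 - 2 * p * r) * x * z ^ 2 - r * y ^ 3 + p * r * y ^ 2 * z - q * r * y * z ^ 2 + r ^ 2 * z ^ 3

variable (p q r T0 T1 T2 x y z x' y' z' : R)

lemma nrm_mul : nrm p q r (m0 p q r x y z x' y' z') (m1 p q r x y z x' y' z')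
    (m2 p q r x y z x' y' z') = nrm p q r x y z * nrm p q r x' y' z' := by
  unfold nrm m0 m1 m2
  ring

/-- the values of the linear form at `Y`, `θ Y`, `θ² Y`, ... -/
lemma hank_mul :
    hank (T0 * x + T1 * y + T2 * z) (T1 * x + T2 * y + nx p q r T0 T1 T2 * z)
      (T2 * x + nx p q r T0 T1 T2 * y + nx p q r T1 T2 (nx p q r T0 T1 T2) * z)
      (nx p q r T0 T1 T2 * x + nx p q r T1 T2 (nx p q r T0 T1 T2) * y +
        nx p q r T2 (nx p q r T0 T1 T2) (nx p q r T1 T2 (nx p q r T0 T1 T2)) * z)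
      (nx p q r T1 T2 (nx p q r T0 T1 T2) * x +
        nx p q r T2 (nx p q r T0 T1 T2) (nx p q r T1 T2 (nx p q r T0 T1 T2)) * y +
        nx p q r (nx p q r T0 T1 T2) (nx p q r T1 T2 (nx p q r T0 T1 T2))
          (nx p q r T2 (nx p q r T0 T1 T2) (nx p q r T1 T2 (nx p q r T0 T1 T2))) * z) =
      nrm p q r x y z * DH p q r T0 T1 T2 := by
  unfold DH nrm hank nx
  ring

lemma hank_zero (c1 c2 : R) : hank 0 c1 c2 (nx p q r 0 c1 c2) (nx p q r c1 c2 (nx p q r 0 c1 c2)) =
    -bin (p * q - r) (p ^ 2 + q) (2 * p) 1 c1 c2 := by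
  unfold hank nx bin
  ring

lemma dsc_res : dsc (p * q - r) (p ^ 2 + q) (2 * p) 1 = dsc 1 p q r := by
  unfold dsc
  ring

/-- coordinates of the cube -/
def cu0 : R := m0 p q r x y z (m0 p q r x y z x y z) (m1 p q r x y z x y z) (m2 p q r x y z x y z)
/-- coordinates of the cube -/
def cu1 : R := m1 p q r x y z (m0 p q r x y z x y z) (m1 p q r x y z x y z) (m2 p q r x y z x y z)
/-- coordinates of the cube -/
def cu2 : R := m2 p q r x y z (m0 p q r x y z x y z) (m1 p q r x y z x y z) (m2 p q r x y z x y z)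

lemma nrm_cu : nrm p q r (cu0 p q r x y z) (cu1 p q r x y z) (cu2 p q r x y z) =
    nrm p q r x y z ^ 3 := by
  unfold cu0 cu1 cu2
  rw [nrm_mul, nrm_mul]
  ring

lemma ter_eq : ter p q r T0 T1 T2 x y z =
    T0 * cu0 p q r x y z + T1 * cu1 p q r x y z + T2 * cu2 p q r x y z := by
  unfold ter cu0 cu1 cu2 m0 m1 m2 nx
  ring

/-- the point of the first curve -/
theorem bin_of_ter (h : ter p q r T0 T1 T2 x y z = 0) :
    bin (p * q - r) (p ^ 2 + q) (2 * p) 1
      (T1 * cu0 p q r x y z + T2 * cu1 p q r x y z + nx p q r T0 T1 T2 * cu2 p q r x y z)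
      (T2 * cu0 p q r x y z + nx p q r T0 T1 T2 * cu1 p q r x y z +
        nx p q r T1 T2 (nx p q r T0 T1 T2) * cu2 p q r x y z) =
      DH p q r T0 T1 T2 * (-nrm p q r x y z) ^ 3 := by
  rw [ter_eq] at h
  have h1 := hank_mul p q r T0 T1 T2 (cu0 p q r x y z) (cu1 p q r x y z) (cu2 p q r x y z)
  rw [nrm_cu] at h1
  generalize cu0 p q r x y z = y0 at *
  generalize cu1 p q r x y z = y1 at *
  generalize cu2 p q r x y z = y2 at *
  have h3 : nx p q r T0 T1 T2 * y0 + nx p q r T1 T2 (nx p q r T0 T1 T2) * y1 +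
        nx p q r T2 (nx p q r T0 T1 T2) (nx p q r T1 T2 (nx p q r T0 T1 T2)) * y2 =
      nx p q r (T0 * y0 + T1 * y1 + T2 * y2) (T1 * y0 + T2 * y1 + nx p q r T0 T1 T2 * y2)
        (T2 * y0 + nx p q r T0 T1 T2 * y1 + nx p q r T1 T2 (nx p q r T0 T1 T2) * y2) := by
    unfold nx
    ring
  have h4 : nx p q r T1 T2 (nx p q r T0 T1 T2) * y0 +
        nx p q r T2 (nx p q r T0 T1 T2) (nx p q r T1 T2 (nx p q r T0 T1 T2)) * y1 +
        nx p q r (nx p q r T0 T1 T2) (nx p q r T1 T2 (nx p q r T0 T1 T2))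
          (nx p q r T2 (nx p q r T0 T1 T2) (nx p q r T1 T2 (nx p q r T0 T1 T2))) * y2 =
      nx p q r (T1 * y0 + T2 * y1 + nx p q r T0 T1 T2 * y2)
        (T2 * y0 + nx p q r T0 T1 T2 * y1 + nx p q r T1 T2 (nx p q r T0 T1 T2) * y2)
        (nx p q r (T0 * y0 + T1 * y1 + T2 * y2) (T1 * y0 + T2 * y1 + nx p q r T0 T1 T2 * y2)
          (T2 * y0 + nx p q r T0 T1 T2 * y1 + nx p q r T1 T2 (nx p q r T0 T1 T2) * y2)) := by
    unfold nx
    ring
  rw [h4, h3, h, hank_zero] at h1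
  linear_combination -h1

variable {S : Type} [CommRing S] (f : R →+* S)

lemma map_nx (a b c : R) : f (nx p q r a b c) = nx (f p) (f q) (f r) (f a) (f b) (f c) := by
  unfold nx
  simp only [map_neg, map_add, map_mul]

lemma map_DH : f (DH p q r T0 T1 T2) = DH (f p) (f q) (f r) (f T0) (f T1) (f T2) := by
  unfold DH hank
  simp only [map_sub, map_add, map_mul, map_pow, map_ofNat, map_nx]

lemma map_ter : f (ter p q r T0 T1 T2 x y z) =
    ter (f p) (f q) (f r) (f T0) (f T1) (f T2) (f x) (f y) (f z) := by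
  unfold ter
  simp only [map_add, map_mul, map_pow, map_ofNat, map_nx]

end defs

section field
variable {E : Type} [Field E] [CharZero E]

/-- there are no nilpotent elements -/
lemma no_nil {p q r : E} (hd : dsc 1 p q r ≠ 0) {x y z : E} (h0 : cu0 p q r x y z = 0)
    (h1 : cu1 p q r x y z = 0) (h2 : cu2 p q r x y z = 0) : x = 0 ∧ y = 0 ∧ z = 0 := by
  let φ := algebraMap E (AlgebraicClosure E)
  set P : Cubic E := ⟨1, p, q, r⟩ with hP
  have ha : P.a ≠ 0 := one_ne_zero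
  have hs : (P.toPoly.map φ).Splits := IsAlgClosed.splits _
  obtain ⟨a, b, c, habc⟩ := (Cubic.splits_iff_roots_eq_three ha).1 hs
  have hne := (Cubic.discr_ne_zero_iff_roots_ne ha habc).1 hd
  have hroot : ∀ s ∈ (Cubic.map φ P).roots, s ^ 3 + φ p * s ^ 2 + φ q * s + φ r = 0 := by
    intro s hs
    have h3 : (Cubic.map φ P).toPoly ≠ 0 :=
      Cubic.ne_zero_of_a_ne_zero (by show φ 1 ≠ 0; rw [map_one]; exact one_ne_zero)
    have h4 := (Cubic.mem_roots_iff h3 s).1 hs
    have h5 : (Cubic.map φ P).a = 1 := by show φ 1 = 1; exact map_one φ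
    rw [h5, one_mul] at h4
    exact h4
  have hev : ∀ s ∈ (Cubic.map φ P).roots, φ x + φ y * s + φ z * s ^ 2 = 0 := by
    intro s hs
    have h3 := hroot s hs
    have h4 : (φ x + φ y * s + φ z * s ^ 2) ^ 3 = 0 := by
      have e0 := congrArg φ h0
      have e1 := congrArg φ h1
      have e2 := congrArg φ h2
      unfold cu0 m0 m1 m2 at e0
      unfold cu1 m0 m1 m2 at e1
      unfold cu2 m0 m1 m2 at e2
      simp only [map_add, map_sub, map_mul, map_pow, map_zero] at e0 e1 e2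
      have key : ∀ X Y Z X' Y' Z' P Q R : AlgebraicClosure E, s ^ 3 + P * s ^ 2 + Q * s + R = 0 →
          (X + Y * s + Z * s ^ 2) * (X' + Y' * s + Z' * s ^ 2) =
          (X * X' - R * (Y * Z' + Z * Y') + P * R * (Z * Z')) +
          (X * Y' + Y * X' - Q * (Y * Z' + Z * Y') + (P * Q - R) * (Z * Z')) * s +
          (X * Z' + Y * Y' + Z * X' - P * (Y * Z' + Z * Y') + (P ^ 2 - Q) * (Z * Z')) * s ^ 2 := by
        intro X Y Z X' Y' Z' P Q R h
        linear_combination ((Y * Z' + Z * Y') + Z * Z' * s - P * (Z * Z')) * h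
      calc (φ x + φ y * s + φ z * s ^ 2) ^ 3 = (φ x + φ y * s + φ z * s ^ 2) *
            ((φ x + φ y * s + φ z * s ^ 2) * (φ x + φ y * s + φ z * s ^ 2)) := by ring
        _ = 0 := by
          rw [key _ _ _ _ _ _ (φ p) (φ q) (φ r) h3, key _ _ _ _ _ _ (φ p) (φ q) (φ r) h3, e0, e1, e2]
          ring
    exact pow_eq_zero_iff (by norm_num) |>.1 h4
  rw [habc] at hev
  have e1 := hev a (by simp)
  have e2 := hev b (by simp)
  have e3 := hev c (by simp)
  obtain ⟨n1, n2, n3⟩ := hne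
  have f1 : φ y + φ z * (a + b) = 0 := by
    apply mul_left_cancel₀ (sub_ne_zero.2 n1)
    linear_combination e1 - e2
  have f2 : φ y + φ z * (a + c) = 0 := by
    apply mul_left_cancel₀ (sub_ne_zero.2 n2)
    linear_combination e1 - e3
  have f3 : φ z = 0 := by
    apply mul_left_cancel₀ (sub_ne_zero.2 n3)
    linear_combination f1 - f2
  have f4 : φ y = 0 := by rw [f3, zero_mul, add_zero] at f1; exact f1
  have f5 : φ x = 0 := by
    rw [f3, f4, zero_mul, zero_mul, add_zero, add_zero] at e1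
    exact e1
  exact ⟨(map_eq_zero φ).1 f5, (map_eq_zero φ).1 f4, (map_eq_zero φ).1 f3⟩

/-- the point of the first curve is not trivial -/
lemma ne_of_ter {p q r T0 T1 T2 x y z : E} (hd : dsc 1 p q r ≠ 0) (hD : DH p q r T0 T1 T2 ≠ 0)
    (h : ter p q r T0 T1 T2 x y z = 0) (h0 : ¬ (x = 0 ∧ y = 0 ∧ z = 0)) :
    ¬ (T1 * cu0 p q r x y z + T2 * cu1 p q r x y z + nx p q r T0 T1 T2 * cu2 p q r x y z = 0 ∧
      T2 * cu0 p q r x y z + nx p q r T0 T1 T2 * cu1 p q r x y z +
        nx p q r T1 T2 (nx p q r T0 T1 T2) * cu2 p q r x y z = 0) := by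
  rintro ⟨h1, h2⟩
  rw [ter_eq] at h
  apply h0
  unfold DH hank at hD
  generalize nx p q r T1 T2 (nx p q r T0 T1 T2) = T4 at *
  generalize nx p q r T0 T1 T2 = T3 at *
  have g0 : cu0 p q r x y z = 0 := by
    apply mul_left_cancel₀ hD
    linear_combination (T2 * T4 - T3 ^ 2) * h + (T2 * T3 - T1 * T4) * h1 + (T1 * T3 - T2 ^ 2) * h2
  have g1 : cu1 p q r x y z = 0 := by
    apply mul_left_cancel₀ hD
    linear_combination (T2 * T3 - T1 * T4) * h + (T0 * T4 - T2 ^ 2) * h1 + (T1 * T2 - T0 * T3) * h2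
  have g2 : cu2 p q r x y z = 0 := by
    apply mul_left_cancel₀ hD
    linear_combination (T1 * T3 - T2 ^ 2) * h + (T1 * T2 - T0 * T3) * h1 + (T0 * T2 - T1 ^ 2) * h2
  exact no_nil hd g0 g1 g2

end field

/-! ### The second step -/

section second
variable {R : Type} [CommRing R] (u v s α a b x y z : R)

/-- the third coefficient -/
def k2 : R := -(u * b + v * a)
/-- the fourth coefficient -/
def k3 : R := -(u * k2 u v a b + v * b)

lemma ter_split : ter (u - s) (v - u * s) (-(v * s)) (α + a) (α * s + b) (α * s ^ 2 + k2 u v a b) x y z =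
    α * (x + y * s + z * s ^ 2) ^ 3 +
      bin a (3 * b) (3 * k2 u v a b) (k3 u v a b) (x - v * z) (y - u * z) := by
  unfold ter bin k3 k2 nx
  ring

lemma DH_split : DH (u - s) (v - u * s) (-(v * s)) (α + a) (α * s + b) (α * s ^ 2 + k2 u v a b) =
    α * (a * k2 u v a b - b ^ 2) * (s ^ 2 + u * s + v) ^ 2 := by
  unfold DH hank k2 nx
  ring

lemma dsc_split : dsc 1 (u - s) (v - u * s) (-(v * s)) =
    (u ^ 2 - 4 * v) * (s ^ 2 + u * s + v) ^ 2 := by
  unfold dsc
  ring

lemma dsc_bin : dsc a (3 * b) (3 * k2 u v a b) (k3 u v a b) =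
    -27 * (a * k2 u v a b - b ^ 2) ^ 2 * (u ^ 2 - 4 * v) := by
  unfold dsc k3 k2
  ring

end second

end Pool.Agent.W2helper33.ZC
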