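import Mathlib
import Pool.Agent.W2helper33.ZC.Ter
import Pool.Agent.W2helper2.RG.Main

/-!
# The local-global principle for the ternary cubic forms `Tr (α x³)`
-/

set_option autoImplicit false
set_option linter.unusedSectionVars false

namespace Pool.Agent.W2helper33.ZC

open NumberField IsDedekindDomain WithZero IntermediateField
open scoped Classical
open Pool.Agent.W2helper24.TQ

/-- a primitive cube root of unity gives a square root of `-3` -/
lemma exists_theta (K : Type) [Field K] [NumberField K] [IsCyclotomicExtension {3} ℚ K] :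
    ∃ θ : K, θ ^ 2 = -3 := by
  obtain ⟨ζ, hζ⟩ := IsCyclotomicExtension.exists_isPrimitiveRoot ℚ K
    (Set.mem_singleton 3) (by norm_num)
  have hζ2 : ζ ^ 2 + ζ + 1 = 0 := by
    have h3 : ζ ^ 3 = 1 := hζ.pow_eq_one
    have h4 : ζ ≠ 1 := hζ.ne_one (by norm_num)
    have h5 : (ζ - 1) * (ζ ^ 2 + ζ + 1) = 0 := by linear_combination h3
    exact (mul_eq_zero.1 h5).resolve_left (sub_ne_zero.2 h4)
  exact ⟨2 * ζ + 1, by linear_combination 4 * hζ2⟩

/-- the equation of the ternary type, with the coefficients mapped by `f` -/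
def QT {k : Type} [Field k] (p q r T0 T1 T2 : k) {H : Type} [Field H] (f : k →+* H) (X Y Z : H) :
    Prop := ter (f p) (f q) (f r) (f T0) (f T1) (f T2) X Y Z = 0

/-- **the theorem over `k`, ternary forms** -/
theorem stageT {K F k : Type} [Field K] [NumberField K] [IsCyclotomicExtension {3} ℚ K]
    [Field F] [NumberField F] [Algebra K F] [IsGalois K F] [Field k] [NumberField k] [Algebra k F]
    [Normal k F] {n : ℕ} (hn : Module.finrank K F = 3 ^ n) (hR : Ram K F)
    {p q r T0 T1 T2 : k} {t : F}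
    (ht : algebraMap k F (-16 * DH p q r T0 T1 T2 ^ 2 * dsc 1 p q r) = t ^ 6) (ht0 : t ≠ 0)
    (hloc : ∀ v : HeightOneSpectrum (𝓞 k), HasPt (algebraMap k (v.adicCompletion k))
      fun _ _ f X Y Z => QT p q r T0 T1 T2 f X Y Z) :
    ∃ x y z : k, ¬ (x = 0 ∧ y = 0 ∧ z = 0) ∧ ter p q r T0 T1 T2 x y z = 0 := by
  have hprod : -16 * DH p q r T0 T1 T2 ^ 2 * dsc 1 p q r ≠ 0 := by
    intro h
    rw [h, map_zero] at ht
    exact pow_ne_zero 6 ht0 ht.symm
  have hd : dsc 1 p q r ≠ 0 := fun h => hprod (by rw [h]; ring)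
  have hD : DH p q r T0 T1 T2 ≠ 0 := fun h => hprod (by rw [h]; ring)
  -- the first step
  obtain ⟨x, y, hxy, hbin⟩ := stageK (k := k) (K := K) (F := F) hn hR
    (a := p * q - r) (b := p ^ 2 + q) (c := 2 * p) (d := 1) (e := DH p q r T0 T1 T2) (t := t)
    (by rw [← ht, ← map_dsc, dsc_res, map_mul, map_mul, map_pow, map_neg, map_ofNat]) ht0
    (by
      intro v
      obtain ⟨H, i1, i2, hfin, h3, X, Y, Z, h0, h⟩ := hloc v
      refine ⟨H, i1, i2, hfin, h3, ?_⟩
      set f := (algebraMap (v.adicCompletion k) H).comp (algebraMap k (v.adicCompletion k)) with hf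
      have hc1 : CharZero H := charZero_of_injective_ringHom f.injective
      have hd' : dsc 1 (f p) (f q) (f r) ≠ 0 := by
        have h1 := (map_ne_zero f).2 hd
        rw [map_dsc, map_one] at h1
        exact h1
      have hD' : DH (f p) (f q) (f r) (f T0) (f T1) (f T2) ≠ 0 := by
        have h1 := (map_ne_zero f).2 hD
        rw [map_DH] at h1
        exact h1
      have h1 := bin_of_ter _ _ _ _ _ _ _ _ _ h
      have h2 := ne_of_ter hd' hD' h h0
      unfold QB
      simp only [map_sub, map_mul, map_add, map_pow, map_ofNat, map_one, map_DH]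
      exact ⟨_, _, _, fun hh => h2 ⟨hh.1, hh.2.1⟩, h1⟩)
  -- the root
  have hx : x ≠ 0 := by
    rintro rfl
    unfold bin at hbin
    have h1 : y ^ 3 = 0 := by linear_combination hbin
    exact hxy ⟨rfl, pow_eq_zero_iff (by norm_num) |>.1 h1⟩
  set s : k := -(p + y / x) with hs
  have hroot : s ^ 3 + p * s ^ 2 + q * s + r = 0 := by
    have h1 : (p * q - r) + (p ^ 2 + q) * (y / x) + 2 * p * (y / x) ^ 2 + (y / x) ^ 3 = 0 := by
      unfold bin at hbin
      apply mul_left_cancel₀ (pow_ne_zero 3 hx)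
      rw [mul_zero, ← hbin]
      field_simp
    rw [hs]
    linear_combination -h1
  set u : k := p + s with hu
  set v : k := q + u * s with hv
  have ep : p = u - s := by rw [hu]; ring
  have eq : q = v - u * s := by rw [hv]; ring
  have er : r = -(v * s) := by
    rw [hv, hu]
    linear_combination hroot
  have hds := dsc_split u v s
  rw [← ep, ← eq, ← er] at hds
  have hRR : s ^ 2 + u * s + v ≠ 0 := by
    intro h
    apply hd
    rw [hds, h]
    ring
  set RR := s ^ 2 + u * s + v with hRRd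
  set α : k := (T2 + u * T1 + v * T0) / RR with hα
  have hαR : α * RR = T2 + u * T1 + v * T0 := div_mul_cancel₀ _ hRR
  set a : k := T0 - α with ha
  set b : k := T1 - α * s with hb
  have e0 : T0 = α + a := by rw [ha]; ring
  have e1 : T1 = α * s + b := by rw [hb]; ring
  have e2 : T2 = α * s ^ 2 + k2 u v a b := by
    rw [ha, hb, k2]
    rw [hRRd] at hαR
    linear_combination -hαR
  have hDs := DH_split u v s α a b
  rw [← ep, ← eq, ← er, ← e0, ← e1, ← e2] at hDs
  obtain ⟨θK, hθK⟩ := exists_theta K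
  set θ : F := algebraMap K F θK with hθd
  have hθ : θ ^ 2 = -3 := by rw [hθd, ← map_pow, hθK, map_neg, map_ofNat]
  have hθ0 : θ ≠ 0 := by
    intro h
    rw [h, zero_pow (by norm_num)] at hθ
    exact three_ne_zero (α := F) (by linear_combination hθ)
  have hRF : algebraMap k F RR ≠ 0 := (map_ne_zero _).2 hRR
  -- the second step
  obtain ⟨Y1, Y2, hY, hbin2⟩ := stageK (k := k) (K := K) (F := F) hn hR
    (a := a) (b := 3 * b) (c := 3 * k2 u v a b) (d := k3 u v a b) (e := -α)
    (t := θ * t / algebraMap k F RR)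
    (by
      rw [← map_dsc, dsc_bin, div_pow, eq_div_iff (pow_ne_zero 6 hRF)]
      have h6 : (θ * t) ^ 6 = -27 * t ^ 6 := by
        calc (θ * t) ^ 6 = (θ ^ 2) ^ 3 * t ^ 6 := by ring
          _ = -27 * t ^ 6 := by rw [hθ]; norm_num
      rw [h6, ← ht, hDs, hds]
      simp only [map_mul, map_pow, map_neg, map_ofNat, map_sub]
      ring)
    (div_ne_zero (mul_ne_zero hθ0 ht0) hRF)
    (by
      intro w
      obtain ⟨H, i1, i2, hfin, h3, X, Y, Z, h0, h⟩ := hloc w
      set f := (algebraMap (w.adicCompletion k) H).comp (algebraMap k (w.adicCompletion k)) with hf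
      refine ⟨H, i1, i2, hfin, h3, X - f v * Z, Y - f u * Z, X + Y * f s + Z * (f s) ^ 2, ?_, ?_⟩
      · rintro ⟨g1, g2, g3⟩
        have hRw : f RR ≠ 0 := (map_ne_zero _).2 hRR
        have hZ : Z = 0 := by
          apply (mul_eq_zero.1 (?_ : f RR * Z = 0)).resolve_left hRw
          rw [hRRd]
          simp only [map_add, map_mul, map_pow]
          linear_combination g3 - g1 - f s * g2
        rw [hZ, mul_zero, sub_zero] at g1 g2
        exact h0 ⟨g1, g2, hZ⟩
      · have h1 := ter_split (f u) (f v) (f s) (f α) (f a) (f b) X Y Z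
        have f1 : f (k2 u v a b) = k2 (f u) (f v) (f a) (f b) := by
          unfold k2
          simp only [map_neg, map_add, map_mul]
        have f2 : f (k3 u v a b) = k3 (f u) (f v) (f a) (f b) := by
          unfold k3
          simp only [map_neg, map_add, map_mul, f1]
        unfold QT at h
        rw [ep, eq, er, e0, e1, e2] at h
        simp only [map_add, map_sub, map_neg, map_mul, map_pow, f1] at h
        rw [h1] at h
        show bin (f a) (f (3 * b)) (f (3 * k2 u v a b)) (f (k3 u v a b)) (X - f v * Z)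
          (Y - f u * Z) = f (-α) * (X + Y * f s + Z * f s ^ 2) ^ 3
        rw [f2]
        simp only [map_neg, map_mul, map_ofNat, f1]
        linear_combination h)
  -- the point
  refine ⟨Y1 + v * (-(Y1 + s * Y2) / RR), Y2 + u * (-(Y1 + s * Y2) / RR), -(Y1 + s * Y2) / RR,
    ?_, ?_⟩
  · rintro ⟨g1, g2, g3⟩
    rw [g3, mul_zero, add_zero] at g1 g2
    exact hY ⟨g1, g2⟩
  · have h1 := ter_split u v s α a b (Y1 + v * (-(Y1 + s * Y2) / RR))
      (Y2 + u * (-(Y1 + s * Y2) / RR)) (-(Y1 + s * Y2) / RR)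
    rw [← ep, ← eq, ← er, ← e0, ← e1, ← e2] at h1
    rw [h1]
    have g1 : Y1 + v * (-(Y1 + s * Y2) / RR) + (Y2 + u * (-(Y1 + s * Y2) / RR)) * s +
        -(Y1 + s * Y2) / RR * s ^ 2 = 0 := by
      have g2 : -(Y1 + s * Y2) / RR * RR = -(Y1 + s * Y2) := div_mul_cancel₀ _ hRR
      rw [hRRd] at g2 ⊢
      linear_combination g2
    rw [g1, add_sub_cancel_right, add_sub_cancel_right, hbin2]
    ring

/-! ### Number fields in `Om` -/

/-- the fields -/
theorem exists_F (k : IntermediateField ℚ ℂ) [NumberField k] (hk : k ≤ Om) {t : ℂ} (ht : t ∈ Om) :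
    ∃ (F : IntermediateField ℚ ℂ) (_ : NumberField F) (hkF : k ≤ F) (_ : t ∈ F)
      (hKF : Kw ≤ F) (n : ℕ),
      @Normal k F _ _ (inclusion hkF).toRingHom.toAlgebra ∧
      @IsGalois Kw _ F _ (inclusion hKF).toRingHom.toAlgebra ∧
      @Module.finrank Kw F _ _ (inclusion hKF).toRingHom.toAlgebra.toModule = 3 ^ n ∧
      @Ram Kw F _ _ _ _ (inclusion hKF).toRingHom.toAlgebra := by
  let F0 : IntermediateField ℚ ℂ := (k ⊔ Kw) ⊔ adjoin ℚ {t}
  have hF0 : F0 ≤ Om := by
    refine sup_le (sup_le hk Pool.Agent.W2helper2.RG.kw_le_om) ?_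
    rw [adjoin_le_iff]
    rintro z rfl
    exact ht
  have f0 : FiniteDimensional ℚ k := inferInstance
  have f1 : FiniteDimensional ℚ (k ⊔ Kw : IntermediateField ℚ ℂ) :=
    IntermediateField.finiteDimensional_sup k Kw
  have f2 : FiniteDimensional ℚ (adjoin ℚ {t}) := by
    refine finiteDimensional_adjoin fun z hz => ?_
    have : z ∈ Om := by
      rw [Set.mem_singleton_iff] at hz
      rw [hz]
      exact ht
    exact (Pool.Agent.W2helper2.RG.alg_of_om this).isIntegral
  have f3 : FiniteDimensional ℚ F0 := IntermediateField.finiteDimensional_sup _ _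
  let F : IntermediateField ℚ ℂ := normalClosure ℚ F0 ℂ
  have hF : F ≤ Om := Pool.Agent.W2helper2.RG.closure_le hF0
  have hF0F : F0 ≤ F := F0.le_normalClosure
  have n1 : IsNormalClosure ℚ F0 F := Algebra.IsAlgebraic.isNormalClosure_normalClosure fun x =>
    IsAlgClosed.splits _
  have n2 : Normal ℚ F := n1.normal
  have f4 : FiniteDimensional ℚ F := normalClosure.is_finiteDimensional ℚ F0 ℂ
  have nf : NumberField F := ⟨⟩
  have hkF : k ≤ F := (le_sup_left.trans le_sup_left).trans hF0F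
  have hKF : Kw ≤ F := (le_sup_right.trans le_sup_left).trans hF0F
  have htF : t ∈ F := hF0F (le_sup_right (a := k ⊔ Kw) (subset_adjoin _ _ (by simp)))
  let : Algebra Kw F := (inclusion hKF).toRingHom.toAlgebra
  let : Algebra k F := (inclusion hkF).toRingHom.toAlgebra
  have t1 : IsScalarTower ℚ k F := IsScalarTower.of_algebraMap_eq fun x => rfl
  have n3 : Normal k F := Normal.tower_top_of_normal ℚ k F
  obtain ⟨g1, ⟨n, hn⟩, c, art, hc, hart⟩ := exists_art Pool.Agent.W2helper2.RG.E7 hF hKF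
  have := g1
  exact ⟨F, nf, hkF, htF, hKF, n, n3, g1, hn, ram_of_art hart hc⟩

/-- **binary forms over `Om`** -/
theorem om_bin (k : IntermediateField ℚ ℂ) [NumberField k] (hk : k ≤ Om) {a b c d e : k} {t : ℂ}
    (htO : t ∈ Om) (ht : -16 * (e : ℂ) ^ 2 * dsc (a : ℂ) b c d = t ^ 6) (ht0 : t ≠ 0)
    (hloc : ∀ v : HeightOneSpectrum (𝓞 k), HasPt (algebraMap k (v.adicCompletion k))
      fun _ _ f X Y Z => QB a b c d e f X Y Z) :
    ∃ x y : k, ¬ (x = 0 ∧ y = 0) ∧ bin a b c d x y = 0 := by
  obtain ⟨F, nf, hkF, htF, hKF, n, h1, h2, h3, h4⟩ := exists_F k hk htO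
  let : Algebra Kw F := (inclusion hKF).toRingHom.toAlgebra
  let : Algebra k F := (inclusion hkF).toRingHom.toAlgebra
  have := h1
  have := h2
  refine stageK (K := Kw) (F := F) (k := k) h3 h4 (t := ⟨t, htF⟩) ?_ ?_ hloc
  · apply Subtype.ext
    exact ht
  · intro h
    exact ht0 (congrArg (fun x : F => (x : ℂ)) h)

/-- **ternary forms over `Om`** -/
theorem om_ter (k : IntermediateField ℚ ℂ) [NumberField k] (hk : k ≤ Om) {p q r T0 T1 T2 : k}
    {t : ℂ} (htO : t ∈ Om)
    (ht : ((-16 * DH p q r T0 T1 T2 ^ 2 * dsc 1 p q r : k) : ℂ) = t ^ 6) (ht0 : t ≠ 0)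
    (hloc : ∀ v : HeightOneSpectrum (𝓞 k), HasPt (algebraMap k (v.adicCompletion k))
      fun _ _ f X Y Z => QT p q r T0 T1 T2 f X Y Z) :
    ∃ x y z : k, ¬ (x = 0 ∧ y = 0 ∧ z = 0) ∧ ter p q r T0 T1 T2 x y z = 0 := by
  obtain ⟨F, nf, hkF, htF, hKF, n, h1, h2, h3, h4⟩ := exists_F k hk htO
  let : Algebra Kw F := (inclusion hKF).toRingHom.toAlgebra
  let : Algebra k F := (inclusion hkF).toRingHom.toAlgebra
  have := h1
  have := h2
  refine stageT (K := Kw) (F := F) (k := k) h3 h4 (t := ⟨t, htF⟩) ?_ ?_ hloc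
  · apply Subtype.ext
    exact ht
  · intro h
    exact ht0 (congrArg (fun x : F => (x : ℂ)) h)

end Pool.Agent.W2helper33.ZC
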