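import Mathlib
import Pool.Agent.W2helper33.ZC.Main

/-!
# Ternary cubic forms that are sums of three cubes of linear forms over an extension
-/

set_option autoImplicit false
set_option linter.unusedSectionVars false

namespace Pool.Agent.W2helper33.ZC

open MvPolynomial
open scoped Classical

section avoid
variable {E : Type} [Field E] [CharZero E]

/-- the value of a linear form -/
def ell (c : Fin 3 → E) (v : Fin 3 → E) : E := c 0 * v 0 + c 1 * v 1 + c 2 * v 2

/-- an integral vector at which finitely many linear forms do not vanish -/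
lemma avoid (S : Finset (Fin 3 → E)) (hS : ∀ c ∈ S, c ≠ 0) :
    ∃ n : ℕ, ∀ c ∈ S, ell c ![1, (n : E), (n : E) ^ 2] ≠ 0 := by
  by_contra hcon
  push Not at hcon
  let P : Polynomial E := ∏ c ∈ S, (Polynomial.C (c 0) + Polynomial.C (c 1) * Polynomial.X +
    Polynomial.C (c 2) * Polynomial.X ^ 2)
  have hP : P = 0 := by
    refine Polynomial.eq_zero_of_infinite_isRoot P ?_
    refine Set.infinite_of_injective_forall_mem (f := fun n : ℕ => (n : E)) Nat.cast_injective ?_
    intro n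
    obtain ⟨c, hc, h⟩ := hcon n
    show P.eval (n : E) = 0
    rw [Polynomial.eval_prod]
    refine Finset.prod_eq_zero hc ?_
    simp only [Polynomial.eval_add, Polynomial.eval_mul, Polynomial.eval_C, Polynomial.eval_X,
      Polynomial.eval_pow]
    unfold ell at h
    simpa using h
  rw [Finset.prod_eq_zero_iff] at hP
  obtain ⟨c, hc, h⟩ := hP
  apply hS c hc
  have h0 := congrArg (fun Q => Polynomial.coeff Q 0) h
  have h1 := congrArg (fun Q => Polynomial.coeff Q 1) h
  have h2 := congrArg (fun Q => Polynomial.coeff Q 2) h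
  simp [Polynomial.coeff_X, Polynomial.coeff_C, Polynomial.coeff_X_pow] at h0 h1 h2
  funext i
  fin_cases i
  · exact h0
  · exact h1
  · exact h2

end avoid

section gen
variable {k E : Type} [Field k] [CharZero k] [Field E] [CharZero E] [Algebra k E]
  {f : MvPolynomial (Fin 3) k} {L : Matrix (Fin 3) (Fin 3) E}
  (hf : map (algebraMap k E) f = ∑ i, (∑ j, C (L i j) * X j) ^ 3)

/-- the values of `f` -/
noncomputable def gv (f : MvPolynomial (Fin 3) k) (u : Fin 3 → k) : k := eval u f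

/-- the symmetric trilinear form -/
noncomputable def tri (f : MvPolynomial (Fin 3) k) (x y z : Fin 3 → k) : k :=
  (gv f (x + y + z) - gv f (x + y) - gv f (y + z) - gv f (x + z) + gv f x + gv f y + gv f z) / 6

/-- the vector over `E` -/
abbrev up (E : Type) [Field E] [Algebra k E] (u : Fin 3 → k) : Fin 3 → E := fun j => algebraMap k E (u j)

include hf in
lemma eval_f (v : Fin 3 → E) : eval₂ (algebraMap k E) v f = ∑ i, (ell (L i) v) ^ 3 := by
  rw [← eval_map, hf, map_sum]
  refine Finset.sum_congr rfl fun i _ => ?_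
  rw [map_pow, map_sum, Fin.sum_univ_three]
  simp only [map_mul, eval_C, eval_X]
  rfl

include hf in
lemma gv_up (u : Fin 3 → k) : algebraMap k E (gv f u) = ∑ i, (ell (L i) (up E u)) ^ 3 := by
  rw [← eval_f hf]
  unfold gv
  rw [eval₂_comp]
  rfl

lemma ell_add (c u v : Fin 3 → E) : ell c (u + v) = ell c u + ell c v := by
  unfold ell
  simp only [Pi.add_apply]
  ring

lemma up_add (u v : Fin 3 → k) : up E (u + v) = up E u + up E v := by
  funext j
  exact map_add _ _ _

include hf in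
lemma tri_up (x y z : Fin 3 → k) : algebraMap k E (tri f x y z) =
    ∑ i, ell (L i) (up E x) * ell (L i) (up E y) * ell (L i) (up E z) := by
  unfold tri
  rw [map_div₀, map_ofNat, div_eq_iff (by norm_num)]
  simp only [map_add, map_sub, gv_up hf, up_add, ell_add, Fin.sum_univ_three]
  ring

/-- a linear substitution -/
lemma sub_lin (P : Matrix (Fin 3) (Fin 3) k) (f : MvPolynomial (Fin 3) k) {H : Type} [Field H]
    (g : k →+* H) (v : Fin 3 → H) :
    eval₂ g v (eval₂ C (fun j => ∑ l, C (P j l) * X l) f : MvPolynomial (Fin 3) k) =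
      eval₂ g (fun j => ∑ l, g (P j l) * v l) f := by
  have h := eval₂_comp_left (eval₂Hom g v) (C : k →+* MvPolynomial (Fin 3) k)
    (fun j => ∑ l, C (P j l) * X l) f
  rw [coe_eval₂Hom] at h
  rw [h]
  have h1 : (eval₂Hom g v).comp (C : k →+* MvPolynomial (Fin 3) k) = g := by
    ext a
    simp
  have h2 : (eval₂ g v) ∘ (fun j => ∑ l, C (P j l) * X l : Fin 3 → MvPolynomial (Fin 3) k) =
      fun j => ∑ l, g (P j l) * v l := by
    funext j
    show eval₂ g v (∑ l, C (P j l) * X l) = _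
    rw [← coe_eval₂Hom, map_sum]
    refine Finset.sum_congr rfl fun l _ => ?_
    simp
  rw [h1, h2]

/-- linear systems -/
lemma solve {A : Matrix (Fin 3) (Fin 3) k} (hA : A.det ≠ 0) (c : Fin 3 → k) :
    ∃ w, A.mulVec w = c :=
  ⟨A⁻¹.mulVec c, by
    rw [Matrix.mulVec_mulVec, Matrix.mul_nonsing_inv _ (isUnit_iff_ne_zero.2 hA),
      Matrix.one_mulVec]⟩

lemma ell_single (c : Fin 3 → E) (a : Fin 3) :
    ell c (up E (Pi.single a (1 : k) : Fin 3 → k)) = c a := by
  unfold ell up
  fin_cases a <;> simp [Pi.single_apply]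

include hf in
/-- the product of two vectors -/
lemma exists_prod (hD : L.det ≠ 0) {e : Fin 3 → k} (he : ∀ i, ell (L i) (up E e) ≠ 0)
    (x y : Fin 3 → k) : ∃ w : Fin 3 → k, ∀ i,
      ell (L i) (up E e) * ell (L i) (up E w) = ell (L i) (up E x) * ell (L i) (up E y) := by
  let B : Matrix (Fin 3) (Fin 3) k := Matrix.of fun a b => tri f e (Pi.single a 1) (Pi.single b 1)
  have hB : B.map (algebraMap k E) = L.transpose *
      (Matrix.diagonal (fun i => ell (L i) (up E e)) * L) := by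
    ext a b
    rw [Matrix.map_apply, Matrix.mul_apply]
    simp only [Matrix.diagonal_mul, Matrix.transpose_apply]
    show algebraMap k E (tri f e (Pi.single a 1) (Pi.single b 1)) = _
    rw [tri_up hf]
    refine Finset.sum_congr rfl fun i _ => ?_
    rw [ell_single, ell_single]
    ring
  have hBdet : B.det ≠ 0 := by
    intro h
    have h1 : (B.map (algebraMap k E)).det = 0 := by
      have h2 := RingHom.map_det (algebraMap k E) B
      rw [h, map_zero] at h2
      exact h2.symm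
    rw [hB, Matrix.det_mul, Matrix.det_mul, Matrix.det_transpose, Matrix.det_diagonal] at h1
    exact mul_ne_zero hD (mul_ne_zero (Finset.prod_ne_zero_iff.2 fun i _ => he i) hD) h1
  obtain ⟨w, hw⟩ := solve hBdet fun a => tri f x y (Pi.single a 1)
  refine ⟨w, ?_⟩
  have hv : Matrix.vecMul (fun i => ell (L i) (up E e) * ell (L i) (up E w) -
      ell (L i) (up E x) * ell (L i) (up E y)) L = 0 := by
    funext a
    have h1 := congrArg (algebraMap k E) (congrFun hw a)
    rw [tri_up hf] at h1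
    have h2 : algebraMap k E (B.mulVec w a) =
        ∑ i, L i a * (ell (L i) (up E e) * ell (L i) (up E w)) := by
      show algebraMap k E (∑ b, B a b * w b) = _
      rw [map_sum]
      have h3 : ∀ b, algebraMap k E (B a b * w b) =
          (∑ i, ell (L i) (up E e) * L i a * L i b) * up E w b := by
        intro b
        rw [map_mul]
        show algebraMap k E (tri f e (Pi.single a 1) (Pi.single b 1)) * _ = _
        rw [tri_up hf]
        congr 1
        refine Finset.sum_congr rfl fun i _ => ?_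
        rw [ell_single, ell_single]
      rw [Finset.sum_congr rfl fun b _ => h3 b]
      simp only [Fin.sum_univ_three, ell]
      ring
    rw [h2] at h1
    show ∑ i, (ell (L i) (up E e) * ell (L i) (up E w) -
      ell (L i) (up E x) * ell (L i) (up E y)) * L i a = 0
    simp only [ell_single] at h1
    rw [Fin.sum_univ_three] at h1 ⊢
    rw [Fin.sum_univ_three] at h1
    linear_combination h1
  have h0 := Matrix.eq_zero_of_vecMul_eq_zero hD hv
  intro i
  exact sub_eq_zero.1 (congrFun h0 i)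

/-- the sums of powers -/
lemma ter_sum {p q r T0 T1 T2 μ0 μ1 μ2 c0 c1 c2 : E}
    (h0 : μ0 ^ 3 = -(p * μ0 ^ 2 + q * μ0 + r)) (h1 : μ1 ^ 3 = -(p * μ1 ^ 2 + q * μ1 + r))
    (h2 : μ2 ^ 3 = -(p * μ2 ^ 2 + q * μ2 + r)) (e0 : T0 = c0 + c1 + c2)
    (e1 : T1 = c0 * μ0 + c1 * μ1 + c2 * μ2) (e2 : T2 = c0 * μ0 ^ 2 + c1 * μ1 ^ 2 + c2 * μ2 ^ 2) :
    (∀ x y z : E, ter p q r T0 T1 T2 x y z = c0 * (x + y * μ0 + z * μ0 ^ 2) ^ 3 +
      c1 * (x + y * μ1 + z * μ1 ^ 2) ^ 3 + c2 * (x + y * μ2 + z * μ2 ^ 2) ^ 3) ∧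
    DH p q r T0 T1 T2 = c0 * c1 * c2 * ((μ1 - μ0) * (μ2 - μ0) * (μ2 - μ1)) ^ 2 := by
  have e3 : nx p q r T0 T1 T2 = c0 * μ0 ^ 3 + c1 * μ1 ^ 3 + c2 * μ2 ^ 3 := by
    unfold nx
    rw [e0, e1, e2, h0, h1, h2]
    ring
  have e4 : nx p q r T1 T2 (nx p q r T0 T1 T2) = c0 * μ0 ^ 4 + c1 * μ1 ^ 4 + c2 * μ2 ^ 4 := by
    rw [e3]
    unfold nx
    rw [e1, e2]
    linear_combination (-(c0 * μ0)) * h0 - (c1 * μ1) * h1 - (c2 * μ2) * h2
  have e5 : nx p q r T2 (nx p q r T0 T1 T2) (nx p q r T1 T2 (nx p q r T0 T1 T2)) =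
      c0 * μ0 ^ 5 + c1 * μ1 ^ 5 + c2 * μ2 ^ 5 := by
    rw [e4, e3]
    unfold nx
    rw [e2]
    linear_combination (-(c0 * μ0 ^ 2)) * h0 - (c1 * μ1 ^ 2) * h1 - (c2 * μ2 ^ 2) * h2
  have e6 : nx p q r (nx p q r T0 T1 T2) (nx p q r T1 T2 (nx p q r T0 T1 T2))
      (nx p q r T2 (nx p q r T0 T1 T2) (nx p q r T1 T2 (nx p q r T0 T1 T2))) =
      c0 * μ0 ^ 6 + c1 * μ1 ^ 6 + c2 * μ2 ^ 6 := by
    rw [e5, e4, e3]
    unfold nx
    linear_combination (-(c0 * μ0 ^ 3)) * h0 - (c1 * μ1 ^ 3) * h1 - (c2 * μ2 ^ 3) * h2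
  refine ⟨fun x y z => ?_, ?_⟩
  · unfold ter
    simp only
    rw [e6, e5, e4, e3, e0, e1, e2]
    ring
  · unfold DH
    rw [e4, e3, e0, e1, e2]
    unfold hank
    ring

/-- Vieta's formulas -/
lemma vieta {p q r μ0 μ1 μ2 : E}
    (h0 : μ0 ^ 3 = -(p * μ0 ^ 2 + q * μ0 + r)) (h1 : μ1 ^ 3 = -(p * μ1 ^ 2 + q * μ1 + r))
    (h2 : μ2 ^ 3 = -(p * μ2 ^ 2 + q * μ2 + r)) (n01 : μ0 ≠ μ1) (n02 : μ0 ≠ μ2) (n12 : μ1 ≠ μ2) :
    dsc 1 p q r = ((μ1 - μ0) * (μ2 - μ0) * (μ2 - μ1)) ^ 2 := by
  have a1 : μ0 ^ 2 + μ0 * μ1 + μ1 ^ 2 + p * (μ0 + μ1) + q = 0 := by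
    apply mul_left_cancel₀ (sub_ne_zero.2 n01)
    linear_combination h0 - h1
  have a2 : μ0 ^ 2 + μ0 * μ2 + μ2 ^ 2 + p * (μ0 + μ2) + q = 0 := by
    apply mul_left_cancel₀ (sub_ne_zero.2 n02)
    linear_combination h0 - h2
  have hp : p = -(μ0 + μ1 + μ2) := by
    have : (μ1 - μ2) * (p + (μ0 + μ1 + μ2)) = 0 := by linear_combination a1 - a2
    have h3 := (mul_eq_zero.1 this).resolve_left (sub_ne_zero.2 n12)
    linear_combination h3
  have hq : q = μ0 * μ1 + μ0 * μ2 + μ1 * μ2 := by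
    rw [hp] at a1
    linear_combination a1
  have hr : r = -(μ0 * μ1 * μ2) := by
    rw [hp, hq] at h0
    linear_combination h0
  unfold dsc
  rw [hp, hq, hr]
  ring

include hf in
/-- **the normal form** -/
theorem normal_form (hD : L.det ≠ 0) : ∃ (P : Matrix (Fin 3) (Fin 3) k) (p q r T0 T1 T2 : k),
    P.det ≠ 0 ∧
    algebraMap k E (-16 * DH p q r T0 T1 T2 ^ 2 * dsc 1 p q r) =
      -16 * (L.det * algebraMap k E P.det) ^ 6 ∧
    ∀ (H : Type) [Field H] (g : k →+* H) (v : Fin 3 → H),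
      eval₂ g (fun j => ∑ c, g (P j c) * v c) f =
        ter (g p) (g q) (g r) (g T0) (g T1) (g T2) (v 0) (v 1) (v 2) := by
  have hrow : ∀ i, L i ≠ 0 := by
    intro i h
    apply hD
    exact Matrix.det_eq_zero_of_row_eq_zero i fun j => by rw [h]; rfl
  obtain ⟨n, hn⟩ := avoid (E := E) (Finset.univ.image fun i => L i) (by
    intro c hc
    rw [Finset.mem_image] at hc
    obtain ⟨i, -, rfl⟩ := hc
    exact hrow i)
  set e : Fin 3 → k := ![1, (n : k), (n : k) ^ 2] with he
  have hup : ∀ m : ℕ, up E (![1, (m : k), (m : k) ^ 2] : Fin 3 → k) = ![1, (m : E), (m : E) ^ 2] := by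
    intro m
    funext j
    fin_cases j <;> simp [up]
  have hA : ∀ i, ell (L i) (up E e) ≠ 0 := by
    intro i
    rw [he, hup]
    exact hn _ (Finset.mem_image_of_mem _ (Finset.mem_univ i))
  set A : Fin 3 → E := fun i => ell (L i) (up E e) with hAd
  -- the generator
  obtain ⟨m, hm⟩ := avoid (E := E) (Finset.image (fun s : Fin 3 × Fin 3 => fun c =>
      A s.2 * L s.1 c - A s.1 * L s.2 c) (Finset.univ.filter fun s => s.1 ≠ s.2)) (by
    intro c hc
    rw [Finset.mem_image] at hc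
    obtain ⟨s, hs, rfl⟩ := hc
    have hs' : s.1 ≠ s.2 := (Finset.mem_filter.1 hs).2
    intro h0
    -- a linear relation of the rows
    have hv : Matrix.vecMul (fun i => if i = s.1 then A s.2 else if i = s.2 then -A s.1 else 0) L
        = 0 := by
      funext c
      have h1 := congrFun h0 c
      show ∑ i, (if i = s.1 then A s.2 else if i = s.2 then -A s.1 else 0) * L i c = 0
      have h2 : ∀ i, (if i = s.1 then A s.2 else if i = s.2 then -A s.1 else 0) * L i c =
          (if i = s.1 then A s.2 * L s.1 c else 0) + (if i = s.2 then -A s.1 * L s.2 c else 0) := by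
        intro i
        by_cases h3 : i = s.1
        · subst h3
          rw [if_pos rfl, if_pos rfl, if_neg hs', add_zero]
        · rw [if_neg h3, if_neg h3, zero_add]
          by_cases h4 : i = s.2
          · subst h4
            rw [if_pos rfl, if_pos rfl]
          · rw [if_neg h4, if_neg h4, zero_mul]
      rw [Finset.sum_congr rfl fun i _ => h2 i, Finset.sum_add_distrib, Finset.sum_ite_eq',
        Finset.sum_ite_eq', if_pos (Finset.mem_univ _), if_pos (Finset.mem_univ _)]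
      have h5 : A s.2 * L s.1 c - A s.1 * L s.2 c = 0 := h1
      linear_combination h5
    have h6 := congrFun (Matrix.eq_zero_of_vecMul_eq_zero hD hv) s.1
    simp only [if_true] at h6
    exact hA s.2 h6)
  set θ : Fin 3 → k := ![1, (m : k), (m : k) ^ 2] with hθ
  set Bv : Fin 3 → E := fun i => ell (L i) (up E θ) with hBd
  have hne : ∀ i i' : Fin 3, i ≠ i' → Bv i * A i' ≠ Bv i' * A i := by
    intro i i' hii h
    have h1 := hm _ (Finset.mem_image_of_mem _ (Finset.mem_filter.2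
      ⟨Finset.mem_univ (i, i'), hii⟩))
    apply h1
    rw [← hup, ← hθ]
    have h2 : Bv i * A i' - Bv i' * A i = 0 := sub_eq_zero.2 h
    rw [← h2, hBd]
    unfold ell
    ring
  obtain ⟨w, hw⟩ := exists_prod hf hD hA θ θ
  obtain ⟨u, hu⟩ := exists_prod hf hD hA θ w
  set Cv : Fin 3 → E := fun i => ell (L i) (up E w) with hCd
  set μ : Fin 3 → E := fun i => Bv i / A i with hμ
  have hB : ∀ i, Bv i = A i * μ i := fun i => (mul_div_cancel₀ _ (hA i)).symm
  have hC : ∀ i, Cv i = A i * μ i ^ 2 := by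
    intro i
    have h1 : A i * Cv i = Bv i * Bv i := hw i
    apply mul_left_cancel₀ (hA i)
    show A i * Cv i = A i * (A i * μ i ^ 2)
    rw [h1, hB]
    ring
  have hU : ∀ i, ell (L i) (up E u) = A i * μ i ^ 3 := by
    intro i
    have h1 : A i * ell (L i) (up E u) = Bv i * Cv i := hu i
    apply mul_left_cancel₀ (hA i)
    show A i * ell (L i) (up E u) = A i * (A i * μ i ^ 3)
    rw [h1, hB, hC]
    ring
  have hμne : ∀ i i' : Fin 3, i ≠ i' → μ i ≠ μ i' := by
    intro i i' hii h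
    apply hne i i' hii
    rw [hB, hB, h]
    ring
  -- the matrix
  let P : Matrix (Fin 3) (Fin 3) k := Matrix.of fun j c => (![e j, θ j, w j] : Fin 3 → k) c
  have hLP : L.det * algebraMap k E P.det = A 0 * A 1 * A 2 *
      ((μ 1 - μ 0) * (μ 2 - μ 0) * (μ 2 - μ 1)) := by
    have h1 := RingHom.map_det (algebraMap k E) P
    rw [h1, ← Matrix.det_mul]
    have h2 : L * (algebraMap k E).mapMatrix P =
        Matrix.of fun i c => (![A i, Bv i, Cv i] : Fin 3 → E) c := by
      ext i c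
      rw [Matrix.mul_apply, Fin.sum_univ_three]
      fin_cases c
      · rfl
      · rfl
      · rfl
    rw [h2, Matrix.det_fin_three]
    show A 0 * Bv 1 * Cv 2 - A 0 * Cv 1 * Bv 2 - Bv 0 * A 1 * Cv 2 + Bv 0 * Cv 1 * A 2 +
      Cv 0 * A 1 * Bv 2 - Cv 0 * Bv 1 * A 2 = _
    rw [hB, hB, hB, hC, hC, hC]
    ring
  have n01 : μ 0 ≠ μ 1 := hμne 0 1 (by decide)
  have n02 : μ 0 ≠ μ 2 := hμne 0 2 (by decide)
  have n12 : μ 1 ≠ μ 2 := hμne 1 2 (by decide)
  have hPdet : P.det ≠ 0 := by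
    intro h
    rw [h, map_zero, mul_zero] at hLP
    exact mul_ne_zero (mul_ne_zero (mul_ne_zero (hA 0) (hA 1)) (hA 2))
      (mul_ne_zero (mul_ne_zero (sub_ne_zero.2 n01.symm) (sub_ne_zero.2 n02.symm))
        (sub_ne_zero.2 n12.symm)) hLP.symm
  obtain ⟨c, hc⟩ := solve hPdet u
  have hrec : ∀ i, μ i ^ 3 = -(algebraMap k E (-c 2) * μ i ^ 2 + algebraMap k E (-c 1) * μ i +
      algebraMap k E (-c 0)) := by
    intro i
    have h1 := hU i
    rw [← hc] at h1
    apply mul_left_cancel₀ (hA i)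
    show A i * μ i ^ 3 = _
    rw [← h1]
    have h2 : ell (L i) (up E (P.mulVec c)) = algebraMap k E (c 0) * A i +
        algebraMap k E (c 1) * Bv i + algebraMap k E (c 2) * Cv i := by
      have h3 : ∀ j, up E (P.mulVec c) j = up E e j * algebraMap k E (c 0) +
          up E θ j * algebraMap k E (c 1) + up E w j * algebraMap k E (c 2) := by
        intro j
        show algebraMap k E (∑ l, P j l * c l) = _
        rw [Fin.sum_univ_three, map_add, map_add, map_mul, map_mul, map_mul]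
        rfl
      unfold ell
      rw [h3, h3, h3, hAd, hBd, hCd]
      unfold ell
      ring
    rw [h2, hB, hC, map_neg, map_neg, map_neg]
    show _ = A i * _
    ring
  refine ⟨P, -c 2, -c 1, -c 0, gv f e, tri f e e θ, tri f e θ θ, hPdet, ?_, ?_⟩
  · have e0 : algebraMap k E (gv f e) = A 0 ^ 3 + A 1 ^ 3 + A 2 ^ 3 := by
      rw [gv_up hf, Fin.sum_univ_three]
    have e1 : algebraMap k E (tri f e e θ) = A 0 ^ 3 * μ 0 + A 1 ^ 3 * μ 1 + A 2 ^ 3 * μ 2 := by
      rw [tri_up hf, Fin.sum_univ_three]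
      show A 0 * A 0 * Bv 0 + A 1 * A 1 * Bv 1 + A 2 * A 2 * Bv 2 = _
      rw [hB, hB, hB]
      ring
    have e2 : algebraMap k E (tri f e θ θ) =
        A 0 ^ 3 * μ 0 ^ 2 + A 1 ^ 3 * μ 1 ^ 2 + A 2 ^ 3 * μ 2 ^ 2 := by
      rw [tri_up hf, Fin.sum_univ_three]
      show A 0 * Bv 0 * Bv 0 + A 1 * Bv 1 * Bv 1 + A 2 * Bv 2 * Bv 2 = _
      rw [hB, hB, hB]
      ring
    have h1 := (ter_sum (hrec 0) (hrec 1) (hrec 2) e0 e1 e2).2
    have h2 := vieta (hrec 0) (hrec 1) (hrec 2) n01 n02 n12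
    rw [map_mul, map_mul, map_pow, map_neg, map_ofNat, map_DH, map_dsc, map_one, h1, h2, hLP]
    ring
  · have hpoly : eval₂ C (fun j => ∑ l, C (P j l) * X l) f =
        ter (C (-c 2)) (C (-c 1)) (C (-c 0)) (C (gv f e)) (C (tri f e e θ)) (C (tri f e θ θ))
          (X 0 : MvPolynomial (Fin 3) k) (X 1) (X 2) := by
      apply MvPolynomial.map_injective (algebraMap k E) (algebraMap k E).injective
      apply MvPolynomial.funext
      intro v
      have e0 : algebraMap k E (gv f e) = A 0 ^ 3 + A 1 ^ 3 + A 2 ^ 3 := by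
        rw [gv_up hf, Fin.sum_univ_three]
      have e1 : algebraMap k E (tri f e e θ) = A 0 ^ 3 * μ 0 + A 1 ^ 3 * μ 1 + A 2 ^ 3 * μ 2 := by
        rw [tri_up hf, Fin.sum_univ_three]
        show A 0 * A 0 * Bv 0 + A 1 * A 1 * Bv 1 + A 2 * A 2 * Bv 2 = _
        rw [hB, hB, hB]
        ring
      have e2 : algebraMap k E (tri f e θ θ) =
          A 0 ^ 3 * μ 0 ^ 2 + A 1 ^ 3 * μ 1 ^ 2 + A 2 ^ 3 * μ 2 ^ 2 := by
        rw [tri_up hf, Fin.sum_univ_three]
        show A 0 * Bv 0 * Bv 0 + A 1 * Bv 1 * Bv 1 + A 2 * Bv 2 * Bv 2 = _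
        rw [hB, hB, hB]
        ring
      have h1 := (ter_sum (hrec 0) (hrec 1) (hrec 2) e0 e1 e2).1 (v 0) (v 1) (v 2)
      have h2 : eval v (map (algebraMap k E) (ter (C (-c 2)) (C (-c 1)) (C (-c 0)) (C (gv f e))
          (C (tri f e e θ)) (C (tri f e θ θ)) (X 0 : MvPolynomial (Fin 3) k) (X 1) (X 2))) =
          ter (algebraMap k E (-c 2)) (algebraMap k E (-c 1)) (algebraMap k E (-c 0))
            (algebraMap k E (gv f e)) (algebraMap k E (tri f e e θ)) (algebraMap k E (tri f e θ θ))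
            (v 0) (v 1) (v 2) := by
        have h3 := map_ter (C (-c 2)) (C (-c 1)) (C (-c 0)) (C (gv f e))
          (C (tri f e e θ)) (C (tri f e θ θ)) (X 0 : MvPolynomial (Fin 3) k) (X 1) (X 2)
          ((eval v).comp (map (algebraMap k E)))
        simp only [RingHom.comp_apply, map_C, eval_C, map_X, eval_X] at h3
        exact h3
      rw [h2, h1, eval_map, sub_lin, eval_f hf, Fin.sum_univ_three]
      have h4 : ∀ i, ell (L i) (fun j => ∑ l, algebraMap k E (P j l) * v l) =
          A i * (v 0 + v 1 * μ i + v 2 * μ i ^ 2) := by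
        intro i
        have h5 : ∀ j, (∑ l, algebraMap k E (P j l) * v l) =
            up E e j * v 0 + up E θ j * v 1 + up E w j * v 2 := by
          intro j
          rw [Fin.sum_univ_three]
          rfl
        have h6 : ell (L i) (fun j => ∑ l, algebraMap k E (P j l) * v l) =
            A i * v 0 + Bv i * v 1 + Cv i * v 2 := by
          show L i 0 * (∑ l, algebraMap k E (P 0 l) * v l) +
            L i 1 * (∑ l, algebraMap k E (P 1 l) * v l) +
            L i 2 * (∑ l, algebraMap k E (P 2 l) * v l) = _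
          rw [h5, h5, h5, hAd, hBd, hCd]
          unfold ell
          ring
        rw [h6, hB, hC]
        ring
      rw [h4, h4, h4]
      ring
    intro H _ g v
    have h1 := congrArg (eval₂ g v) hpoly
    rw [sub_lin] at h1
    rw [h1]
    have h3 := map_ter (C (-c 2)) (C (-c 1)) (C (-c 0)) (C (gv f e))
      (C (tri f e e θ)) (C (tri f e θ θ)) (X 0 : MvPolynomial (Fin 3) k) (X 1) (X 2)
      (eval₂Hom g v)
    simp only [coe_eval₂Hom, eval₂_C, eval₂_X] at h3
    exact h3

end gen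

end Pool.Agent.W2helper33.ZC
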