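import Mathlib
import Pool.Agent.W2helper33.ZC.Gen

/-!
# The local-global principle for the plane cubics which become the Fermat cubic
-/

set_option autoImplicit false
set_option linter.unusedSectionVars false

namespace Pool.Agent.W2helper33.ZC

open MvPolynomial
open NumberField IsDedekindDomain WithZero IntermediateField
open scoped Classical
open Pool.Agent.W2helper24.TQ

/-- `f = 0` has a nonzero solution over an extension of `κ` of degree prime to three -/
def HasZ {k κ : Type} [Field k] [Field κ] (g : k →+* κ) (f : MvPolynomial (Fin 3) k) : Prop :=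
  ∃ (H : Type) (_ : Field H) (_ : Algebra κ H), FiniteDimensional κ H ∧
    ¬ 3 ∣ Module.finrank κ H ∧ ∃ x : Fin 3 → H, x ≠ 0 ∧ eval₂ ((algebraMap κ H).comp g) x f = 0

/-- the substitution -/
lemma hasPt_of_hasZ {k κ : Type} [Field k] [Field κ] (g : k →+* κ) {f : MvPolynomial (Fin 3) k}
    {P : Matrix (Fin 3) (Fin 3) k} {p q r T0 T1 T2 : k} (hP : P.det ≠ 0)
    (h : ∀ (H : Type) [Field H] (g : k →+* H) (v : Fin 3 → H),
      eval₂ g (fun j => ∑ c, g (P j c) * v c) f =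
        ter (g p) (g q) (g r) (g T0) (g T1) (g T2) (v 0) (v 1) (v 2)) (hz : HasZ g f) :
    HasPt g fun _ _ f X Y Z => QT p q r T0 T1 T2 f X Y Z := by
  obtain ⟨H, i1, i2, hfin, h3, x, hx, hx0⟩ := hz
  set φ := (algebraMap κ H).comp g with hφ
  have hdet : (P.map φ).det ≠ 0 := by
    have h1 := RingHom.map_det φ P
    have h2 : φ.mapMatrix P = P.map φ := rfl
    rw [h2] at h1
    rw [← h1]
    exact (map_ne_zero φ).2 hP
  obtain ⟨v, hv⟩ : ∃ v, (P.map φ).mulVec v = x := ⟨(P.map φ)⁻¹.mulVec x, by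
    rw [Matrix.mulVec_mulVec, Matrix.mul_nonsing_inv _ (isUnit_iff_ne_zero.2 hdet),
      Matrix.one_mulVec]⟩
  refine ⟨H, i1, i2, hfin, h3, v 0, v 1, v 2, ?_, ?_⟩
  · rintro ⟨h0, h1, h2⟩
    apply hx
    have hv0 : v = 0 := by
      funext i
      fin_cases i
      · exact h0
      · exact h1
      · exact h2
    rw [← hv, hv0, Matrix.mulVec_zero]
  · show QT p q r T0 T1 T2 φ (v 0) (v 1) (v 2)
    unfold QT
    rw [← h H φ v, ← hx0, ← hv]
    rfl

/-- the solution over `k` -/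
lemma zero_of_ter {k : Type} [Field k] {f : MvPolynomial (Fin 3) k}
    {P : Matrix (Fin 3) (Fin 3) k} {p q r T0 T1 T2 : k} (hP : P.det ≠ 0)
    (h : ∀ (H : Type) [Field H] (g : k →+* H) (v : Fin 3 → H),
      eval₂ g (fun j => ∑ c, g (P j c) * v c) f =
        ter (g p) (g q) (g r) (g T0) (g T1) (g T2) (v 0) (v 1) (v 2))
    (hz : ∃ x y z : k, ¬ (x = 0 ∧ y = 0 ∧ z = 0) ∧ ter p q r T0 T1 T2 x y z = 0) :
    ∃ x : Fin 3 → k, x ≠ 0 ∧ eval x f = 0 := by
  obtain ⟨x, y, z, h0, hxyz⟩ := hz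
  refine ⟨P.mulVec ![x, y, z], ?_, ?_⟩
  · intro h1
    have h2 := Matrix.eq_zero_of_mulVec_eq_zero hP h1
    exact h0 ⟨congrFun h2 0, congrFun h2 1, congrFun h2 2⟩
  · have h1 := h k (RingHom.id k) ![x, y, z]
    have h2 : eval₂ (RingHom.id k) (fun j => ∑ c, (RingHom.id k) (P j c) * ![x, y, z] c) f = 0 :=
      h1.trans hxyz
    exact h2

/-- **the theorem for `F / K`** -/
theorem genF {K F k E : Type} [Field K] [NumberField K] [IsCyclotomicExtension {3} ℚ K]
    [Field F] [NumberField F] [Algebra K F] [IsGalois K F] [Field k] [NumberField k] [Algebra k F]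
    [Normal k F] [Field E] [CharZero E] [Algebra k E] [Algebra F E] [IsScalarTower k F E]
    {n : ℕ} (hn : Module.finrank K F = 3 ^ n) (hR : Ram K F)
    {f : MvPolynomial (Fin 3) k} {L : Matrix (Fin 3) (Fin 3) E}
    (hf : map (algebraMap k E) f = ∑ i, (∑ j, C (L i j) * X j) ^ 3) (hD : L.det ≠ 0)
    {t : F} (ht : -16 * L.det ^ 6 = algebraMap F E t ^ 6)
    (hloc : ∀ v : HeightOneSpectrum (𝓞 k), HasZ (algebraMap k (v.adicCompletion k)) f) :
    ∃ x : Fin 3 → k, x ≠ 0 ∧ eval x f = 0 := by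
  obtain ⟨P, p, q, r, T0, T1, T2, hP, h1, h2⟩ := normal_form hf hD
  refine zero_of_ter hP h2 ?_
  have ht0 : t ≠ 0 := by
    rintro rfl
    rw [map_zero, zero_pow (by norm_num)] at ht
    exact mul_ne_zero (by norm_num) (pow_ne_zero 6 hD) ht
  refine stageT (K := K) (F := F) hn hR (t := t * algebraMap k F P.det) ?_
    (mul_ne_zero ht0 ((map_ne_zero _).2 hP)) fun v => hasPt_of_hasZ _ hP h2 (hloc v)
  apply (algebraMap F E).injective
  rw [← IsScalarTower.algebraMap_apply, h1, map_pow, map_mul, ← IsScalarTower.algebraMap_apply,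
    mul_pow, mul_pow, ← ht]
  ring

/-- **the theorem for the number fields in `Om`** -/
theorem genOm (k : IntermediateField ℚ ℂ) [NumberField k] (hk : k ≤ Om)
    {f : MvPolynomial (Fin 3) k} {L : Matrix (Fin 3) (Fin 3) ℂ}
    (hf : map (algebraMap k ℂ) f = ∑ i, (∑ j, C (L i j) * X j) ^ 3) (hD : L.det ≠ 0)
    {t : ℂ} (htO : t ∈ Om) (ht : -16 * L.det ^ 6 = t ^ 6)
    (hloc : ∀ v : HeightOneSpectrum (𝓞 k), HasZ (algebraMap k (v.adicCompletion k)) f) :
    ∃ x : Fin 3 → k, x ≠ 0 ∧ eval x f = 0 := by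
  obtain ⟨P, p, q, r, T0, T1, T2, hP, h1, h2⟩ := normal_form hf hD
  refine zero_of_ter hP h2 ?_
  have ht0 : t ≠ 0 := by
    rintro rfl
    rw [zero_pow (by norm_num)] at ht
    exact mul_ne_zero (by norm_num) (pow_ne_zero 6 hD) ht
  refine om_ter k hk (t := t * (P.det : ℂ)) (mul_mem htO (hk P.det.2)) ?_ ?_
    fun v => hasPt_of_hasZ _ hP h2 (hloc v)
  · have h3 : algebraMap k ℂ (-16 * DH p q r T0 T1 T2 ^ 2 * dsc 1 p q r) =
      (t * (P.det : ℂ)) ^ 6 := by
      rw [h1, mul_pow, mul_pow, ← ht]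
      show -16 * (L.det ^ 6 * (P.det : ℂ) ^ 6) = -16 * L.det ^ 6 * (P.det : ℂ) ^ 6
      ring
    exact h3
  · refine mul_ne_zero ht0 ?_
    intro h
    exact hP (Subtype.ext h)

end Pool.Agent.W2helper33.ZC
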